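import Pool.Agent.Helper76.SGA.Main

/-!
# The block Roth lemma for blocks of arbitrary sizes (project PN, MP_a41896_nt)

`BR m`: polynomials in `m` variables; the variable `h` is in the block `b h` (`b` is monotone) and has the weight `d (b h)`;
`d j' ≤ ω d j` for different blocks `j < j'`.  A polynomial of degrees `≤ d W`, logarithmic height `≤ H W` and
index `≥ σ W` at `ξ` forces one of the blocks of `ξ` to be on a hypersurface (in the variables of this block) of
degrees `≤ D` and height `≤ Kc H / d_j`.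

Proof: induction on `m`, only irreducible factors (`FAC`) and resultants with a partial derivative (`resv`).
-/

set_option autoImplicit false

open MvPolynomial

namespace Pool.Agent.Helper92.PN

open Pool.Agent.Helper92.Ru Pool.Agent.Helper42.SG Pool.Agent.Helper76.SGA

/-- elimination of the last variable; the derivative is in the direction `v`. -/
theorem resv : ∀ (k : Type) [Field k] [NumberField k] (m : ℕ), ∃ C : ℝ, 1 ≤ C ∧
    ∀ (r : Fin (m + 1) → ℕ) (ξ : Fin (m + 1) → k) (f : MvPolynomial (Fin (m + 1)) k)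
      (H W τ : ℝ) (v : Fin m), (∀ h, 1 ≤ r h ∧ (r h : ℝ) ≤ H) → 0 < W →
      Irreducible f → (∀ h, (f.degreeOf h : ℝ) ≤ r h * W) → Real.log (PH f) ≤ H * W →
      0 < τ → IndGe r ξ τ f → 1 ≤ f.degreeOf (Fin.last m) →
      1 ≤ f.degreeOf v.castSucc → 1 / (r v.castSucc : ℝ) ≤ τ / 2 →
      ∃ g : MvPolynomial (Fin m) k, g ≠ 0 ∧
        (∀ h, g.degreeOf h ≤ 2 * f.degreeOf (Fin.last m) * f.degreeOf (Fin.castSucc h)) ∧
        Real.log (PH g) ≤ 2 * f.degreeOf (Fin.last m) * (C * H * W) ∧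
        IndGe (fun h => r (Fin.castSucc h)) (fun h => ξ (Fin.castSucc h))
          (min (2 * (f.degreeOf (Fin.last m) : ℝ)) (τ * r (Fin.last m) / 4) * (τ / 4)) g := by
  intro k _ _ m
  obtain ⟨C, hC1, hC⟩ := rht k m
  obtain ⟨s1, s2, s3, s4, s5, s6, s7, s8, s9⟩ := Pool.Agent.Helper57.SGA.sep k m
  refine ⟨1 + C, by linarith, ?_⟩
  intro r ξ f H W τ v hr hW hirr hdeg hht hτ hind hY hv hρτ
  have hf0 : f ≠ 0 := hirr.ne_zero
  obtain ⟨d1, d2, d3, d4, d5⟩ := Pool.Agent.Helper90.SGA.ddv k (m + 1) f v.castSucc hf0 hv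
  have hFdeg : (sepL k m f).natDegree = f.degreeOf (Fin.last m) := s5 f
  have hGdeg : (sepL k m (pderiv v.castSucc f)).natDegree ≤ f.degreeOf (Fin.last m) := by
    rw [s5]
    exact d3 _
  have hFirr : Irreducible (sepL k m f) := (MulEquiv.irreducible_iff (sepL k m)).2 hirr
  have hndvd : ¬ sepL k m f ∣ sepL k m (pderiv v.castSucc f) := by
    rw [map_dvd_iff (sepL k m)]
    exact d2
  refine ⟨Polynomial.resultant (sepL k m f) (sepL k m (pderiv v.castSucc f))
    (f.degreeOf (Fin.last m)) (f.degreeOf (Fin.last m)), ?_, ?_, ?_, ?_⟩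
  · have h1 := Pool.Agent.Helper69.SGA.rnz (MvPolynomial (Fin m) k) (sepL k m f)
      (sepL k m (pderiv v.castSucc f)) hFirr (by rw [hFdeg]; exact hY) hndvd
      (by rw [hFdeg]; exact hGdeg)
    rwa [hFdeg] at h1
  · intro h'
    exact rdeg k m _ (f.degreeOf (Fin.castSucc h')) f (pderiv v.castSucc f) h' le_rfl (d3 _)
  · have hB : ∀ h', (f.degreeOf h' : ℝ) ≤ H * W := fun h' =>
      (hdeg h').trans (mul_le_mul_of_nonneg_right (hr h').2 hW.le)
    have h1 := hC f (pderiv v.castSucc f) (f.degreeOf (Fin.last m)) (H * W) hf0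
      hY (hB _) hB (fun h' => le_trans (by exact_mod_cast d3 h') (hB h')) (by
        intro e
        obtain ⟨e', c, hc, he⟩ := d4 e
        exact ⟨e', c, le_trans (by exact_mod_cast hc) (hB _), he⟩)
    refine h1.trans ?_
    apply mul_le_mul_of_nonneg_left _ (by positivity)
    nlinarith
  · have h1 : IndGe r ξ (τ / 2) (pderiv v.castSucc f) := by
      refine Pool.Agent.Helper35.SGA.indGe_mono2 (d5 r ξ τ hind) ?_
      linarith
    have h3 := rix k m _ r ξ τ (τ / 2) f (pderiv v.castSucc f)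
      (fun h' => (hr h').1) rfl (d3 _) (by linarith) hind h1
    exact Pool.Agent.Helper35.SGA.indGe_mono2 h3
      (Pool.Agent.Helper35.SGA.sum_lower2 _ τ _ (hr _).1 hτ)

/-- the height of the polynomial `X_i - c`. -/
theorem log_PH_X_sub_C {k : Type} [Field k] [NumberField k] {σ : Type} (i : σ) (c : k) :
    Real.log (PH (X i - C c : MvPolynomial σ k)) ≤ Height.logHeight₁ c := by
  classical
  have h1 : (fun e : (X i - C c : MvPolynomial σ k).support =>
      coeff e.1 (X i - C c : MvPolynomial σ k)) =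
      (![-c, 1] : Fin 2 → k) ∘ (fun e => if e.1 = 0 then 0 else 1) := by
    funext e
    have he := e.2
    rw [mem_support_iff] at he
    by_cases h0 : e.1 = 0
    · simp only [Function.comp, h0, if_true]
      simp
    · have h2 : coeff e.1 (X i - C c : MvPolynomial σ k) =
          if Finsupp.single i 1 = e.1 then 1 else 0 := by
        have h5 : coeff e.1 (C c : MvPolynomial σ k) = 0 := by
          rw [coeff_C, if_neg (fun h => h0 h.symm)]
        rw [coeff_sub, coeff_X, h5, sub_zero]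
      rw [h2] at he
      simp only [Function.comp, h0, if_false]
      rw [h2]
      by_cases h3 : Finsupp.single i 1 = e.1
      · simp [h3]
      · exact absurd (if_neg h3) he
  have h2 : PH (X i - C c : MvPolynomial σ k) ≤ Height.mulHeight₁ c := by
    unfold PH
    rw [h1]
    refine (Height.mulHeight_comp_le _ _).trans ?_
    rw [← Height.mulHeight₁_eq_mulHeight, Height.mulHeight₁_neg]
  exact Real.log_le_log (Height.mulHeight_pos _) h2

/-- the general block Roth lemma in `m` variables. -/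
def BR (m : ℕ) : Prop :=
  ∀ (k : Type) [Field k] [NumberField k] (σ : ℝ), 0 < σ →
    ∃ (D : ℕ) (Kc ω : ℝ), 1 ≤ Kc ∧ 0 < ω ∧ ω ≤ 1 ∧
    ∀ (b : Fin m → ℕ) (d : ℕ → ℕ) (ξ : Fin m → k) (H W : ℝ) (p : MvPolynomial (Fin m) k),
      Monotone b → (∀ h, 1 ≤ d (b h) ∧ (d (b h) : ℝ) ≤ H) →
      (∀ h h', b h < b h' → (d (b h') : ℝ) ≤ ω * d (b h)) →
      InvW (fun h => d (b h)) ξ H σ W p →
      ∃ (h₀ : Fin m) (f : MvPolynomial (Fin m) k), f ≠ 0 ∧ (∀ h, f.degreeOf h ≤ D) ∧
        (∀ h, b h ≠ b h₀ → f.degreeOf h = 0) ∧ eval ξ f = 0 ∧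
        d (b h₀) * Real.log (PH f) ≤ Kc * H

theorem br_zero : BR 0 := by
  intro k _ _ σ hσ
  refine ⟨0, 1, 1, le_rfl, one_pos, le_rfl, ?_⟩
  intro b d ξ H W p _ _ _ hinv
  exfalso
  obtain ⟨hp, hW, -, -, hind⟩ := hinv
  have h1 : shiftP ξ p ≠ 0 := by
    intro h
    apply hp
    have hinj : Function.Injective (shiftP ξ) := by
      have h3 : ((shiftP (fun h => - ξ h)).comp (shiftP ξ) :
          MvPolynomial (Fin 0) k →ₐ[k] MvPolynomial (Fin 0) k) = AlgHom.id k _ := by
        apply algHom_ext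
        intro i
        simp [shiftP]
      exact Function.LeftInverse.injective (g := shiftP (fun h => - ξ h))
        (fun x => AlgHom.congr_fun h3 x)
    exact hinj (by rw [h, map_zero])
  obtain ⟨e, he⟩ := exists_coeff_ne_zero h1
  have h2 := hind e (mem_support_iff.2 he)
  simp only [Finset.univ_eq_empty, Finset.sum_empty] at h2
  have : 0 < σ * W := by positivity
  linarith

/-- positive index: the value is zero. -/
theorem eval_zero_of_ind {k : Type} [Field k] {m : ℕ} {r : Fin m → ℕ} {ξ : Fin m → k} {θ : ℝ}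
    {p : MvPolynomial (Fin m) k} (h : IndGe r ξ θ p) (hθ : 0 < θ) : eval ξ p = 0 := by
  rw [Pool.Agent.Helper35.SGA.eval_shift]
  by_contra hne
  have hmem : (0 : Fin m →₀ ℕ) ∈ (shiftP ξ p).support := mem_support_iff.2 hne
  have h2 := h 0 hmem
  simp only [Finsupp.coe_zero, Pi.zero_apply, Nat.cast_zero, zero_div, Finset.sum_const_zero] at h2
  linarith

/-- lifting a conclusion from `m` to `m + 1` variables. -/
theorem lift_concl {k : Type} [Field k] [NumberField k] {m : ℕ} (D D' : ℕ) (A A' : ℝ)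
    (hD : D ≤ D') (hA : A ≤ A') (b : Fin (m + 1) → ℕ) (d : ℕ → ℕ) (ξ : Fin (m + 1) → k)
    (hc : ∃ (h₀ : Fin m) (f : MvPolynomial (Fin m) k), f ≠ 0 ∧ (∀ h, f.degreeOf h ≤ D) ∧
        (∀ h : Fin m, b h.castSucc ≠ b h₀.castSucc → f.degreeOf h = 0) ∧
        eval (fun h : Fin m => ξ h.castSucc) f = 0 ∧
        d (b h₀.castSucc) * Real.log (PH f) ≤ A) :
    ∃ (h₀ : Fin (m + 1)) (f : MvPolynomial (Fin (m + 1)) k), f ≠ 0 ∧
        (∀ h, f.degreeOf h ≤ D') ∧
        (∀ h, b h ≠ b h₀ → f.degreeOf h = 0) ∧ eval ξ f = 0 ∧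
        d (b h₀) * Real.log (PH f) ≤ A' := by
  classical
  obtain ⟨h₀, f, hf, hdeg, hsup, hev, hht⟩ := hc
  have hinj : Function.Injective (Fin.castSucc : Fin m → Fin (m + 1)) := Fin.castSucc_injective m
  have hlast : (rename Fin.castSucc f : MvPolynomial (Fin (m + 1)) k).degreeOf (Fin.last m) = 0 := by
    by_contra hne
    have h1 := mem_vars_iff_degreeOf_ne_zero.2 hne
    have h2 := vars_rename (Fin.castSucc : Fin m → Fin (m + 1)) f h1
    rw [Finset.mem_image] at h2
    obtain ⟨a, -, ha⟩ := h2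
    exact (Fin.castSucc_lt_last a).ne ha
  obtain ⟨f', hff', hdeg', hPH', -, -, -⟩ := Pool.Agent.Helper32.SGA.ren k m (m + 1)
    Fin.castSucc hinj (rename Fin.castSucc f) (by
      intro h hh
      rcases Fin.eq_castSucc_or_eq_last h with ⟨j, hj⟩ | hj
      · exact absurd ⟨j, hj.symm⟩ hh
      · rw [hj]
        exact hlast)
  have hfe : f' = f := rename_injective _ hinj hff'.symm
  subst hfe
  refine ⟨h₀.castSucc, rename Fin.castSucc f', ?_, ?_, ?_, ?_, ?_⟩
  · intro h
    exact hf (rename_injective _ hinj (by rw [h, map_zero]))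
  · intro h
    rcases Fin.eq_castSucc_or_eq_last h with ⟨j, hj⟩ | hj
    · rw [hj, ← hdeg']
      exact (hdeg j).trans hD
    · rw [hj, hlast]
      exact Nat.zero_le _
  · intro h hb
    rcases Fin.eq_castSucc_or_eq_last h with ⟨j, hj⟩ | hj
    · rw [hj] at hb
      rw [hj, ← hdeg']
      exact hsup j hb
    · rw [hj, hlast]
  · rw [eval_rename]
    exact hev
  · rw [← hPH']
    exact hht.trans hA

theorem br_succ (m : ℕ) (ih : BR m) : BR (m + 1) := by
  intro k _ _ σ hσ
  obtain ⟨C₁, σ₁, hC₁, hσ₁, hFAC⟩ := fac k (m + 1) σ hσ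
  obtain ⟨C₂, hC₂, hRES⟩ := resv k m
  set σ₃ : ℝ := min 2 (σ₁ / 4) * σ₁ / 8 with hσ₃
  have hm0 : 0 < min (2 : ℝ) (σ₁ / 4) := lt_min two_pos (by positivity)
  have hσ₃0 : 0 < σ₃ := by positivity
  obtain ⟨D₁, K₁, ω₁, hK₁, hω₁, hω₁1, hB₁⟩ := ih k σ₁ hσ₁
  obtain ⟨D₃, K₃, ω₃, hK₃, hω₃, hω₃1, hB₃⟩ := ih k σ₃ hσ₃0
  have hdiv := Pool.Agent.Helper9.Ru.divBound Pool.Agent.Helper96.Ru.heightLocal
  set δ : ℝ := (Module.finrank ℚ k : ℝ) with hδ
  have hδ0 : 0 ≤ δ := Nat.cast_nonneg _
  have hl2 : 0 < Real.log 2 := Real.log_pos (by norm_num)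
  set E : ℝ := (δ * Real.log 2 + 1) * C₁ / σ₁ with hE
  have hE0 : 0 < E := by positivity
  refine ⟨max (max D₁ D₃) (⌈2 / σ₁⌉₊ + 1),
    max (max (K₁ * C₁) (K₃ * (C₂ * C₁))) (max (2 / σ₁ * C₁) E),
    min (min ω₁ ω₃) (σ₁ / 2), ?_, ?_, ?_, ?_⟩
  · refine le_trans ?_ ((le_max_left _ _).trans (le_max_left _ _))
    nlinarith
  · exact lt_min (lt_min hω₁ hω₃) (by positivity)
  · exact (min_le_left _ _).trans ((min_le_left _ _).trans hω₁1)
  intro b d ξ H W p hmono hd hω hinv
  have hHpos : 0 < H := by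
    have h1 := (hd (Fin.last m)).1
    have h2 := (hd (Fin.last m)).2
    have h3 : (1 : ℝ) ≤ (d (b (Fin.last m)) : ℝ) := by exact_mod_cast h1
    linarith
  obtain ⟨f, W', hirr, hinv'⟩ := hFAC (fun h => d (b h)) ξ H W p hd hinv
  obtain ⟨hf0, hW', hdeg, hPHW, hind⟩ := hinv'
  have hC₁H : H ≤ C₁ * H := by nlinarith
  have hdC : ∀ h, 1 ≤ d (b h) ∧ (d (b h) : ℝ) ≤ C₁ * H := fun h =>
    ⟨(hd h).1, (hd h).2.trans hC₁H⟩
  have hmono' : Monotone (fun h : Fin m => b h.castSucc) := fun x y hxy =>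
    hmono (Fin.castSucc_le_castSucc_iff.2 hxy)
  set r : ℕ := d (b (Fin.last m)) with hr
  have hr1 : (1 : ℝ) ≤ (r : ℝ) := by exact_mod_cast (hd (Fin.last m)).1
  have hr0 : (0 : ℝ) < (r : ℝ) := by linarith
  have hpos : 0 < σ₁ * W' := by positivity
  by_cases hN : f.degreeOf (Fin.last m) = 0
  · -- `f` does not involve the last variable
    obtain ⟨g, hfg, hgd, hgPH, hgInd, -, -⟩ := Pool.Agent.Helper32.SGA.ren k m (m + 1) Fin.castSucc
      (Fin.castSucc_injective _) f (by
        intro h hh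
        rcases Fin.eq_castSucc_or_eq_last h with ⟨j, hj⟩ | hj
        · exact absurd ⟨j, hj.symm⟩ hh
        · rw [hj]
          exact hN)
    have hg0 : g ≠ 0 := by
      intro hg
      apply hf0
      rw [hfg, hg, map_zero]
    have h1 := hB₁ (fun h : Fin m => b h.castSucc) d (fun h : Fin m => ξ h.castSucc) (C₁ * H) W' g
      hmono' (fun h => hdC _) (by
        intro h h' hlt
        refine (hω _ _ hlt).trans ?_
        exact mul_le_mul_of_nonneg_right ((min_le_left _ _).trans (min_le_left _ _))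
          (Nat.cast_nonneg _))
      ⟨hg0, hW', fun h => by rw [hgd]; exact hdeg _, by rw [hgPH]; exact hPHW,
        hgInd (fun h => d (b h)) ξ _ hind⟩
    refine lift_concl D₁ _ (K₁ * (C₁ * H)) _ ?_ ?_ b d ξ h1
    · exact (le_max_left _ _).trans (le_max_left _ _)
    · rw [← mul_assoc]
      exact mul_le_mul_of_nonneg_right ((le_max_left _ _).trans (le_max_left _ _)) hHpos.le
  -- `f` involves the last variable
  have hN1 : 1 ≤ f.degreeOf (Fin.last m) := Nat.one_le_iff_ne_zero.2 hN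
  have hN1' : (1 : ℝ) ≤ (f.degreeOf (Fin.last m) : ℝ) := by exact_mod_cast hN1
  have hN0' : (0 : ℝ) < (f.degreeOf (Fin.last m) : ℝ) := by linarith
  have hNR : (f.degreeOf (Fin.last m) : ℝ) ≤ (r : ℝ) * W' := hdeg (Fin.last m)
  have hRW : 1 ≤ (r : ℝ) * W' := hN1'.trans hNR
  by_cases hv : ∃ v : Fin m, 1 ≤ f.degreeOf v.castSucc ∧
      1 / (d (b v.castSucc) : ℝ) ≤ σ₁ * W' / 2
  · -- elimination
    obtain ⟨v, hv1, hv2⟩ := hv
    obtain ⟨g, hg0, hgd, hgPH, hgInd⟩ := hRES (fun h => d (b h)) ξ f (C₁ * H) W' (σ₁ * W') v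
      hdC hW' hirr hdeg hPHW hpos hind hN1 hv1 hv2
    have h1 := hB₃ (fun h : Fin m => b h.castSucc) d (fun h : Fin m => ξ h.castSucc)
      (C₂ * (C₁ * H)) (2 * (f.degreeOf (Fin.last m) : ℝ) * W') g
      hmono' (fun h => ⟨(hd _).1, (hdC _).2.trans (by
        have : 0 < C₁ * H := by positivity
        nlinarith)⟩) (by
        intro h h' hlt
        refine (hω _ _ hlt).trans ?_
        exact mul_le_mul_of_nonneg_right ((min_le_left _ _).trans (min_le_right _ _))
          (Nat.cast_nonneg _))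
      ⟨hg0, by positivity, fun h => by
        calc (g.degreeOf h : ℝ)
            ≤ 2 * (f.degreeOf (Fin.last m) : ℝ) * (f.degreeOf (Fin.castSucc h) : ℝ) := by
              exact_mod_cast hgd h
          _ ≤ 2 * (f.degreeOf (Fin.last m) : ℝ) * ((d (b (Fin.castSucc h)) : ℝ) * W') := by
              apply mul_le_mul_of_nonneg_left (hdeg _) (by positivity)
          _ = _ := by ring, by
        refine hgPH.trans (le_of_eq ?_)
        ring, by
        refine Pool.Agent.Helper35.SGA.indGe_mono2 hgInd ?_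
        have h3 : min (2 : ℝ) (σ₁ / 4) * (f.degreeOf (Fin.last m) : ℝ) ≤
            min (2 * (f.degreeOf (Fin.last m) : ℝ)) (σ₁ * W' * (r : ℝ) / 4) := by
          apply le_min
          · exact mul_le_mul_of_nonneg_right (min_le_left _ _) hN0'.le
          · calc min (2 : ℝ) (σ₁ / 4) * (f.degreeOf (Fin.last m) : ℝ)
                ≤ σ₁ / 4 * (f.degreeOf (Fin.last m) : ℝ) :=
                  mul_le_mul_of_nonneg_right (min_le_right _ _) hN0'.le
              _ ≤ σ₁ / 4 * ((r : ℝ) * W') := mul_le_mul_of_nonneg_left hNR (by positivity)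
              _ = _ := by ring
        calc σ₃ * (2 * (f.degreeOf (Fin.last m) : ℝ) * W')
            = min (2 : ℝ) (σ₁ / 4) * (f.degreeOf (Fin.last m) : ℝ) * (σ₁ * W' / 4) := by
              rw [hσ₃]
              ring
          _ ≤ _ := mul_le_mul_of_nonneg_right h3 (by positivity)⟩
    refine lift_concl D₃ _ (K₃ * (C₂ * (C₁ * H))) _ ?_ ?_ b d ξ h1
    · exact (le_max_right _ _).trans (le_max_left _ _)
    · calc K₃ * (C₂ * (C₁ * H)) = K₃ * (C₂ * C₁) * H := by ring
        _ ≤ _ := mul_le_mul_of_nonneg_right ((le_max_right _ _).trans (le_max_left _ _)) hHpos.le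
  push Not at hv
  -- no lower variable is involved
  have hlow : ∀ h : Fin (m + 1), b h ≠ b (Fin.last m) → f.degreeOf h = 0 := by
    intro h hb
    rcases Fin.eq_castSucc_or_eq_last h with ⟨j, hj⟩ | hj
    · by_contra hne
      rw [hj] at hne hb
      have h1 := hv j (Nat.one_le_iff_ne_zero.2 hne)
      have hlt : b j.castSucc < b (Fin.last m) :=
        lt_of_le_of_ne (hmono (Fin.le_last _)) hb
      have h2 := hω _ _ hlt
      have h3 : (r : ℝ) ≤ σ₁ / 2 * (d (b j.castSucc) : ℝ) :=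
        h2.trans (mul_le_mul_of_nonneg_right (min_le_right _ _) (Nat.cast_nonneg _))
      have h4 : (0 : ℝ) < (d (b j.castSucc) : ℝ) := by
        exact_mod_cast (hd j.castSucc).1
      rw [lt_div_iff₀ h4] at h1
      have h5 : σ₁ * W' / 2 * (d (b j.castSucc) : ℝ) = (σ₁ / 2 * (d (b j.castSucc) : ℝ)) * W' := by
        ring
      rw [h5] at h1
      have h6 : (r : ℝ) * W' ≤ (σ₁ / 2 * (d (b j.castSucc) : ℝ)) * W' :=
        mul_le_mul_of_nonneg_right h3 hW'.le
      linarith
    · exact absurd (by rw [hj]) hb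
  by_cases hsm : σ₁ * W' * r < 2
  · -- bounded degree
    refine ⟨Fin.last m, f, hf0, ?_, hlow, eval_zero_of_ind hind hpos, ?_⟩
    · intro h
      by_cases hb : b h = b (Fin.last m)
      · have h1 := hdeg h
        simp only [hb] at h1
        have h2 : (r : ℝ) * W' ≤ 2 / σ₁ := by
          rw [le_div_iff₀ hσ₁]
          nlinarith
        have h3 : (f.degreeOf h : ℝ) ≤ ⌈2 / σ₁⌉₊ := h1.trans (h2.trans (Nat.le_ceil _))
        have h4 : f.degreeOf h ≤ ⌈2 / σ₁⌉₊ := by exact_mod_cast h3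
        exact h4.trans ((Nat.le_succ _).trans (le_max_right _ _))
      · rw [hlow h hb]
        exact Nat.zero_le _
    · have h2 : (r : ℝ) * W' ≤ 2 / σ₁ := by
        rw [le_div_iff₀ hσ₁]
        nlinarith
      calc (r : ℝ) * Real.log (PH f) ≤ r * (C₁ * H * W') := mul_le_mul_of_nonneg_left hPHW hr0.le
        _ = (r * W') * (C₁ * H) := by ring
        _ ≤ (2 / σ₁) * (C₁ * H) := mul_le_mul_of_nonneg_right h2 (by positivity)
        _ = (2 / σ₁ * C₁) * H := by ring
        _ ≤ _ := mul_le_mul_of_nonneg_right ((le_max_left _ _).trans (le_max_right _ _)) hHpos.le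
  push Not at hsm
  -- only the last variable is involved
  have honly : ∀ j : Fin m, f.degreeOf j.castSucc = 0 := by
    intro j
    by_contra hne
    by_cases hb : b j.castSucc = b (Fin.last m)
    · have h1 := hv j (Nat.one_le_iff_ne_zero.2 hne)
      rw [hb, ← hr, lt_div_iff₀ hr0] at h1
      nlinarith
    · exact hne (hlow _ hb)
  obtain ⟨g, hfg, hgd, hgPH, hgInd, -, -⟩ := Pool.Agent.Helper32.SGA.ren k 1 (m + 1)
    (fun _ => Fin.last m) (fun x y _ => Subsingleton.elim x y) f (by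
      intro h hh
      rcases Fin.eq_castSucc_or_eq_last h with ⟨j, hj⟩ | hj
      · rw [hj]
        exact honly j
      · exact absurd ⟨0, hj.symm⟩ hh)
  have hg0 : g ≠ 0 := by
    intro hg
    apply hf0
    rw [hfg, hg, map_zero]
  have hgI := hgInd (fun h => d (b h)) ξ _ hind
  set c : k := ξ (Fin.last m) with hc
  set t : ℝ := σ₁ * W' * r with ht
  have ht0 : 0 < t := by positivity
  have hgord : ∀ e ∈ (shiftP (fun _ => c) g).support, ⌈t⌉₊ ≤ e 0 := by
    intro e he
    have h2 := hgI e he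
    rw [Fin.sum_univ_one, le_div_iff₀ (by exact_mod_cast (hd (Fin.last m)).1)] at h2
    exact Nat.ceil_le.2 h2
  have hdb := hdiv k c ⌈t⌉₊ (g.degreeOf 0) g hg0 le_rfl hgord
  have hmh : 1 ≤ Height.mulHeight₁ c := Height.one_le_mulHeight₁ _
  have hPH1 : 1 ≤ PH g := Height.one_le_mulHeight _
  have h3 := Real.log_le_log (by positivity) hdb
  rw [Real.log_pow, Real.log_mul (by positivity) (by positivity), Real.log_pow] at h3
  push_cast at h3
  set h := Height.logHeight₁ c with hh
  have hh' : Real.log (Height.mulHeight₁ c) = h := rfl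
  rw [hh', ← hδ] at h3
  have hh0 : 0 ≤ h := Real.log_nonneg hmh
  have h4 : t ≤ (⌈t⌉₊ : ℝ) := Nat.le_ceil _
  have hgdeg : (g.degreeOf 0 : ℝ) ≤ H * W' := by
    rw [hgd]
    exact (hdeg _).trans (mul_le_mul_of_nonneg_right (hd _).2 hW'.le)
  have h5 : t * h ≤ H * W' * (δ * Real.log 2) + C₁ * H * W' := by
    calc t * h ≤ (⌈t⌉₊ : ℝ) * h := mul_le_mul_of_nonneg_right h4 hh0
      _ ≤ _ := h3
      _ ≤ H * W' * (δ * Real.log 2) + C₁ * H * W' := by
          have h6 : (g.degreeOf 0 : ℝ) * δ * Real.log 2 ≤ H * W' * (δ * Real.log 2) := by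
            rw [mul_assoc]
            exact mul_le_mul_of_nonneg_right hgdeg (by positivity)
          have h7 : Real.log (PH g) ≤ C₁ * H * W' := by
            rw [hgPH]
            exact hPHW
          linarith
  have h6 : (r : ℝ) * h ≤ E * H := by
    have h7 : W' * (σ₁ * (r * h)) ≤ W' * ((δ * Real.log 2 + 1) * C₁ * H) := by
      have h8 : H * W' * (δ * Real.log 2) ≤ C₁ * H * W' * (δ * Real.log 2) := by
        apply mul_le_mul_of_nonneg_right _ (by positivity)
        exact mul_le_mul_of_nonneg_right hC₁H hW'.le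
      calc W' * (σ₁ * (r * h)) = t * h := by
            rw [ht]
            ring
        _ ≤ _ := h5
        _ ≤ C₁ * H * W' * (δ * Real.log 2) + C₁ * H * W' := by linarith
        _ = _ := by ring
    have h8 := le_of_mul_le_mul_left h7 hW'
    rw [hE, div_mul_eq_mul_div, le_div_iff₀ hσ₁]
    linarith
  refine ⟨Fin.last m, X (Fin.last m) - C c, ?_, ?_, ?_, ?_, ?_⟩
  · intro h0
    have h1 := congrArg (eval (fun _ : Fin (m + 1) => c + 1)) h0
    simp at h1
  · intro j
    refine (degreeOf_sub_le _ _ _).trans ?_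
    rw [degreeOf_C, max_eq_left (Nat.zero_le _)]
    refine le_trans ?_ (le_max_right _ _)
    rw [degreeOf_X]
    split_ifs
    · omega
    · omega
  · intro j hj
    have hne : Fin.last m ≠ j := fun h => hj (by rw [h])
    refine Nat.le_zero.1 ((degreeOf_sub_le _ _ _).trans ?_)
    rw [degreeOf_C, degreeOf_X, if_neg (fun h => hne h.symm)]
    simp
  · simp [hc]
  · calc (r : ℝ) * Real.log (PH (X (Fin.last m) - C c : MvPolynomial (Fin (m + 1)) k))
        ≤ r * h := mul_le_mul_of_nonneg_left (log_PH_X_sub_C _ _) hr0.le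
      _ ≤ E * H := h6
      _ ≤ _ := mul_le_mul_of_nonneg_right ((le_max_right _ _).trans (le_max_right _ _)) hHpos.le

/-- **The block Roth lemma** for blocks of arbitrary sizes. -/
theorem blockRothG : ∀ m : ℕ, BR m
  | 0 => br_zero
  | m + 1 => br_succ m (blockRothG m)

end Pool.Agent.Helper92.PN
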