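import Pool.Agent.Helper92.PN.CenMain

/-!
# CEN: the case `D = 0` and the theorem
-/

set_option autoImplicit false

open MvPolynomial

namespace Pool.Agent.Helper92.PN

open Pool.Agent.Helper29.BL Pool.Agent.Helper42.SG Pool.Agent.Helper65.SG Pool.Agent.Helper5.UN
open Pool.Agent.Helper62.SGB

/-- some `f_j` is not zero. -/
theorem exists_ne_zero {K σ J : Type} [Field K] [Fintype σ] (D s : ℕ) (f : J → MvPolynomial σ K)
    (hf : ∀ j i, degreeOf i (f j) ≤ D) (hc : CodimGT D f s) : ∃ j, f j ≠ 0 := by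
  classical
  by_contra hne
  push Not at hne
  have h1 := dimLT_of_codim (fun _ => true) D s f hf hc (⊥ : Ideal (MvPolynomial σ K))
    (fun j => by rw [hne j, map_zero]; exact Submodule.zero_mem _) Finset.univ (by
      intro F hF
      rw [Ideal.mem_bot] at hF
      exact rename_injective _ Subtype.val_injective (by rw [hF, map_zero]))
  rw [Finset.card_univ] at h1
  omega

theorem cen_zero (K : Type) [Field K] [NumberField K] (σ : Type) [Fintype σ] (J : Type) [Fintype J]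
    (s : ℕ) (f : J → MvPolynomial σ K) (hs : s + 1 ≤ Fintype.card σ)
    (hf : ∀ j i, degreeOf i (f j) ≤ 0) (hc : CodimGT 0 f s) :
    ∃ (c d : ℕ) (B : AbsoluteValue K ℝ → ℝ), 1 ≤ c ∧ 0 < d ∧ PlC B ∧
      ∀ N : ℕ, ∃ (T : Type) (_ : Fintype T) (gr : T → ℕ) (E : T → MvPolynomial σ K)
        (r : T → (σ →₀ ℕ) → K),
        Fintype.card T ≤ c ^ (N + 1) ∧
        (∀ k : ℕ, Nat.card {t : T // gr t < k} ≤
          c * k ^ (s + 1) * (N + 1) ^ (Fintype.card σ - (s + 1))) ∧
        (∀ v t g, v (r t g) ≤ B v ^ (N + 1)) ∧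
        (∀ t g, IsIntegral ℤ ((d : K) ^ (N + 1) * r t g)) ∧
        (∀ g : σ →₀ ℕ, (∀ i, g i ≤ N) → monomial g 1 = ∑ t, C (r t g) * E t) ∧
        ∀ (v : AbsoluteValue K ℝ) (A : Type) [CommRing A] [Algebra K A] (Nm : A → ℝ → Prop),
          NFr v Nm → ∀ (X : σ → A) (a : σ → ℝ) (ρ : ℝ), (∀ i, 1 ≤ a i) → 0 < ρ → ρ ≤ 1 →
          (∀ i, Nm (X i) (a i)) → (∀ j, Nm (aeval X (f j)) (ρ * ∏ i, a i ^ 0)) →
          ∀ t, Nm (aeval X (E t)) (B v ^ (N + 1) * (∏ i, a i ^ N) * ρ ^ gr t) := by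
  classical
  obtain ⟨j₀, hj₀⟩ := exists_ne_zero 0 s f hf hc
  have hC : f j₀ = C (coeff 0 (f j₀)) := by
    ext m
    rw [coeff_C]
    split_ifs with h
    · rw [h]
    · by_contra hne
      apply h
      ext i
      have h1 := deg_supp (hf j₀) (mem_support_iff.2 hne) i
      simp only [Finsupp.coe_zero, Pi.zero_apply]
      omega
  set c₀ : K := coeff 0 (f j₀) with hc₀
  have hc₀0 : c₀ ≠ 0 := by
    intro h
    apply hj₀
    rw [hC, h, map_zero]
  refine ⟨2 ^ Fintype.card σ, 1, fun v => Mv v c₀⁻¹, Nat.pow_pos two_pos, one_pos, plc_Mv _, ?_⟩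
  intro N
  refine ⟨σ → Fin (N + 1), inferInstance, fun _ => N + 1, fun b => monomial (toF b) 1,
    fun b g => if toF b = g then 1 else 0, ?_, ?_, ?_, ?_, ?_, ?_⟩
  · have h1 : N + 1 ≤ 2 ^ (N + 1) := by
      have := (N + 1).lt_two_pow_self
      omega
    have h2 : Fintype.card (σ → Fin (N + 1)) = (N + 1) ^ Fintype.card σ := by simp
    rw [h2]
    calc (N + 1) ^ Fintype.card σ ≤ (2 ^ (N + 1)) ^ Fintype.card σ := Nat.pow_le_pow_left h1 _
      _ = (2 ^ Fintype.card σ) ^ (N + 1) := by rw [← pow_mul, ← pow_mul, mul_comm]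
  · intro k
    by_cases hk : N + 1 < k
    · have h1 : Nat.card {t : σ → Fin (N + 1) // N + 1 < k} ≤ (N + 1) ^ Fintype.card σ := by
        rw [Nat.card_eq_fintype_card]
        refine (Fintype.card_subtype_le _).trans ?_
        simp
      refine h1.trans ?_
      have h2 : Fintype.card σ = (s + 1) + (Fintype.card σ - (s + 1)) := by omega
      calc (N + 1) ^ Fintype.card σ = (N + 1) ^ (s + 1) * (N + 1) ^ (Fintype.card σ - (s + 1)) := by
            rw [← pow_add, ← h2]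
        _ ≤ k ^ (s + 1) * (N + 1) ^ (Fintype.card σ - (s + 1)) :=
            Nat.mul_le_mul (Nat.pow_le_pow_left (by omega) _) le_rfl
        _ ≤ _ := by
            refine Nat.mul_le_mul ?_ le_rfl
            exact Nat.le_mul_of_pos_left _ (Nat.pow_pos two_pos)
    · have h1 : IsEmpty {t : σ → Fin (N + 1) // N + 1 < k} := ⟨fun x => hk x.2⟩
      rw [Nat.card_of_isEmpty]
      exact Nat.zero_le _
  · intro v b g
    have h1 : 1 ≤ Mv v c₀⁻¹ ^ (N + 1) := one_le_pow₀ (le_max_left _ _)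
    change v (if toF b = g then 1 else 0) ≤ Mv v c₀⁻¹ ^ (N + 1)
    split_ifs
    · rw [map_one]
      exact h1
    · rw [map_zero]
      linarith
  · intro b g
    change IsIntegral ℤ (((1 : ℕ) : K) ^ (N + 1) * (if toF b = g then 1 else 0))
    split_ifs
    · simpa using isIntegral_one
    · simpa using isIntegral_zero
  · intro g hg
    change monomial g 1 = ∑ b : σ → Fin (N + 1), C (if toF b = g then (1 : K) else 0) *
      monomial (toF b) 1
    rw [Finset.sum_eq_single (fun i => (⟨g i, Nat.lt_succ_of_le (hg i)⟩ : Fin (N + 1)))]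
    · have h1 : toF (fun i => (⟨g i, Nat.lt_succ_of_le (hg i)⟩ : Fin (N + 1))) = g := by
        ext i
        rfl
      rw [h1, if_pos rfl, C_1, one_mul]
    · intro b _ hb
      rw [if_neg, map_zero, zero_mul]
      intro h
      apply hb
      funext i
      apply Fin.ext
      rw [← toF_apply, h]
    · intro h
      exact absurd (Finset.mem_univ _) h
  · intro v A _ _ Nm hN X a ρ ha hρ hρ1 hX hfX b
    have hA0 : ∀ i, 0 ≤ a i := fun i => zero_le_one.trans (ha i)
    have h1 := fr_mono hN X a hX (toF b)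
    have h2 : Nm (1 : A) (v c₀⁻¹ * ρ) := by
      have h3 := hfX j₀
      simp only [pow_zero, Finset.prod_const_one, mul_one] at h3
      have h4 := fr_smul hN c₀⁻¹ h3
      have h5 : c₀⁻¹ • aeval X (f j₀) = (1 : A) := by
        rw [hC, aeval_C, Algebra.smul_def, ← map_mul, inv_mul_cancel₀ hc₀0, map_one]
      rw [h5] at h4
      exact h4
    have h3 := fr_pow hN h2 (N + 1)
    rw [one_pow] at h3
    have h4 := hN.mul _ _ _ _ h3 h1
    rw [one_mul] at h4
    refine hN.mono _ _ _ h4 ?_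
    have h5 : (v c₀⁻¹ * ρ) ^ (N + 1) ≤ Mv v c₀⁻¹ ^ (N + 1) * ρ ^ (N + 1) := by
      rw [mul_pow]
      exact mul_le_mul_of_nonneg_right (pow_le_pow_left₀ (v.nonneg _) (le_max_right _ _) _)
        (pow_nonneg hρ.le _)
    have h6 : ∏ i, a i ^ toF b i ≤ ∏ i, a i ^ N :=
      Finset.prod_le_prod (fun i _ => pow_nonneg (hA0 i) _) fun i _ =>
        pow_le_pow_right₀ (ha i) (Nat.le_of_lt_succ (b i).isLt)
    have h7 : 0 ≤ ∏ i, a i ^ toF b i := Finset.prod_nonneg fun i _ => pow_nonneg (hA0 i) _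
    calc (v c₀⁻¹ * ρ) ^ (N + 1) * ∏ i, a i ^ toF b i
        ≤ (Mv v c₀⁻¹ ^ (N + 1) * ρ ^ (N + 1)) * ∏ i, a i ^ N :=
          mul_le_mul h5 h6 h7 (mul_nonneg (pow_nonneg (zero_le_one.trans (le_max_left _ _)) _)
            (pow_nonneg hρ.le _))
      _ = _ := by ring

/-- **CEN** -/
theorem cen : CEN := by
  intro K _ _ σ _ J _ D p f hp hpm hf hc
  obtain ⟨s, rfl⟩ : ∃ s, p = s + 1 := ⟨p - 1, by omega⟩
  rw [Nat.add_sub_cancel] at hc
  rcases Nat.eq_zero_or_pos D with hD | hD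
  · subst hD
    exact cen_zero K σ J s f hpm hf hc
  · exact cen_pos K σ J D s f hpm hD hf hc

end Pool.Agent.Helper92.PN
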