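import Pool.Agent.Helper92.PN.Chart

/-!
# CEN, part 3: forms without common zeros
-/

set_option autoImplicit false

open MvPolynomial

namespace Pool.Agent.Helper92.PN

open Pool.Agent.Helper5.UN

section

variable {K σ : Type} [Field K] [Fintype σ]

/-- the forms: combinations of the `f_j`, and further forms `y`. -/
noncomputable def uu {J : Type} [Fintype J] {p q : ℕ} (f : J → MvPolynomial σ K)
    (c : Fin p → J → K) (y : Fin q → MvPolynomial σ K) : Fin p ⊕ Fin q → MvPolynomial σ K :=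
  Sum.elim (fun l => ∑ j, c l j • f j) y

theorem degree_smul_sum {J : Type} [Fintype J] (D : ℕ) (f : J → MvPolynomial σ K) (c : J → K)
    (hf : ∀ j i, degreeOf i (f j) ≤ D) (i : σ) : degreeOf i (∑ j, c j • f j) ≤ D := by
  refine (degreeOf_sum_le _ _ _).trans (Finset.sup_le fun j _ => ?_)
  rw [smul_eq_C_mul]
  exact (degreeOf_C_mul_le _ _ _).trans (hf j i)

theorem exists_forms [Infinite K] {J : Type} [Fintype J] (D s : ℕ) (f : J → MvPolynomial σ K)
    (hf : ∀ j i, degreeOf i (f j) ≤ D) (hc : CodimGT D f s) (hs : s + 1 ≤ Fintype.card σ) :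
    ∃ (c : Fin (s + 1) → J → K) (y : Fin (Fintype.card σ - (s + 1) + 1) → MvPolynomial σ K),
      (∀ l i, degreeOf i (y l) ≤ D) ∧
      ∀ a : σ → Bool, Ideal.span (Set.range fun t => cht a D (uu f c y t)) = ⊤ := by
  classical
  set m := Fintype.card σ with hm
  obtain ⟨c, hcc⟩ := chain (K := K) (σ := σ) (fun _ : σ → Bool => (⊥ : Ideal (MvPolynomial σ K)))
    (fun a j => cht a D (f j)) (m + 1) (fun a P _ _ _ => dimLT_card P) (s + 1) (by omega)
  -- the primes containing the first forms
  have h1 : ∀ (a : σ → Bool) (P : Ideal (MvPolynomial σ K)), P.IsPrime →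
      Ideal.span (Set.range fun l : Fin (s + 1) => cht a D (∑ j, c l j • f j)) ≤ P →
      DimLT P (m - (s + 1) + 1) := by
    intro a P hP hI
    by_cases hj : ∃ j, cht a D (f j) ∉ P
    · have := hcc a P hP bot_le (fun l => by
        have h2 : cht a D (∑ j, c l j • f j) ∈ P := hI (Ideal.subset_span ⟨l, rfl⟩)
        simpa [map_sum, map_smul] using h2) hj
      have h3 : m + 1 - (s + 1) = m - (s + 1) + 1 := by omega
      rwa [h3] at this
    · push Not at hj
      intro S hS
      have := dimLT_of_codim a D s f hf hc P hj S hS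
      omega
  obtain ⟨c', hc'⟩ := chain (K := K) (σ := σ) (fun a : σ → Bool =>
      Ideal.span (Set.range fun l : Fin (s + 1) => cht a D (∑ j, c l j • f j)))
    (fun a (b : σ → Bool) => cht a D (monomial (fl b D 0) 1)) (m - (s + 1) + 1)
    (fun a P hP hI _ => h1 a P hP hI) (m - (s + 1) + 1) le_rfl
  have hmon : ∀ (b : σ → Bool) (i : σ), degreeOf i (monomial (fl b D 0) 1 : MvPolynomial σ K) ≤ D := by
    intro b i
    rw [degreeOf_monomial_eq _ _ one_ne_zero, fl_apply]
    split_ifs
    · exact Nat.zero_le _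
    · exact Nat.sub_le _ _
  refine ⟨c, fun l => ∑ b : σ → Bool, c' l b • monomial (fl b D 0) 1, ?_, ?_⟩
  · intro l i
    exact degree_smul_sum D _ _ hmon i
  · intro a
    by_contra hne
    obtain ⟨P, hP, hIP⟩ := Ideal.exists_le_maximal _ hne
    have hPp : P.IsPrime := hP.isPrime
    have h2 := hc' a P hPp (by
      rw [Ideal.span_le]
      rintro _ ⟨l, rfl⟩
      exact hIP (Ideal.subset_span ⟨Sum.inl l, rfl⟩)) (by
      intro l
      have h3 : cht a D (∑ b : σ → Bool, c' l b • monomial (fl b D 0) 1) ∈ P :=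
        hIP (Ideal.subset_span ⟨Sum.inr l, rfl⟩)
      simpa only [map_sum, map_smul] using h3) ⟨a, by
        rw [← cht_one, cht_cht a D 1 (by
          intro i
          rw [← C_1, degreeOf_C]
          exact Nat.zero_le _)]
        intro h3
        exact hPp.ne_top ((Ideal.eq_top_iff_one P).2 h3)⟩
    rw [Nat.sub_self] at h2
    exact not_dimLT_zero P h2

/-- **MUL** -/
theorem exists_mul [Infinite K] {J : Type} [Fintype J] (D s : ℕ) (f : J → MvPolynomial σ K)
    (hf : ∀ j i, degreeOf i (f j) ≤ D) (hc : CodimGT D f s) (hs : s + 1 ≤ Fintype.card σ) :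
    ∃ (c : Fin (s + 1) → J → K) (y : Fin (Fintype.card σ - (s + 1) + 1) → MvPolynomial σ K)
      (k₁ : ℕ) (H : (σ → Bool) → Fin (s + 1) ⊕ Fin (Fintype.card σ - (s + 1) + 1) →
        MvPolynomial σ K), D ≤ k₁ ∧ 1 ≤ k₁ ∧
      (∀ l i, degreeOf i (y l) ≤ D) ∧ (∀ a t i, degreeOf i (H a t) + D ≤ k₁) ∧
      ∀ a : σ → Bool, ∑ t, H a t * uu f c y t = monomial (fl a k₁ 0) 1 := by
  classical
  obtain ⟨c, y, hy, htop⟩ := exists_forms D s f hf hc hs
  have h1 : ∀ a : σ → Bool, ∃ h : Fin (s + 1) ⊕ Fin (Fintype.card σ - (s + 1) + 1) →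
      MvPolynomial σ K, ∑ t, h t * cht a D (uu f c y t) = 1 := by
    intro a
    have h2 : (1 : MvPolynomial σ K) ∈ Ideal.span (Set.range fun t => cht a D (uu f c y t)) := by
      rw [htop a]
      exact Submodule.mem_top
    exact (Ideal.mem_span_range_iff_exists_fun).1 h2
  choose h hh using h1
  set e : ℕ := Finset.univ.sup fun q : (σ → Bool) ×
    (Fin (s + 1) ⊕ Fin (Fintype.card σ - (s + 1) + 1)) × σ => degreeOf q.2.2 (h q.1 q.2.1) with he
  have hde : ∀ a t i, degreeOf i (h a t) ≤ e + 1 := fun a t i =>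
    (Finset.le_sup (f := fun q : (σ → Bool) ×
      (Fin (s + 1) ⊕ Fin (Fintype.card σ - (s + 1) + 1)) × σ => degreeOf q.2.2 (h q.1 q.2.1))
      (Finset.mem_univ (a, t, i))).trans (Nat.le_succ _)
  have hu : ∀ t i, degreeOf i (uu f c y t) ≤ D := by
    intro t i
    rcases t with l | l
    · exact degree_smul_sum D _ _ hf i
    · exact hy l i
  refine ⟨c, y, e + 1 + D, fun a t => cht a (e + 1) (h a t), by omega, by omega, hy, ?_, ?_⟩
  · intro a t i
    exact Nat.add_le_add_right (cht_degree a (e + 1) (h a t) (hde a t) i) D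
  · intro a
    rw [← cht_one, ← hh a, map_sum]
    refine Finset.sum_congr rfl fun t _ => ?_
    rw [cht_mul a (e + 1) D _ _ (hde a t) (cht_degree a D _ (hu t)), cht_cht a D _ (hu t)]

end

end Pool.Agent.Helper92.PN
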