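import Pool.Agent.Helper92.PN.Cen

/-!
# CEN, part 8: the theorem
-/

set_option autoImplicit false

open MvPolynomial

namespace Pool.Agent.Helper92.PN

open Pool.Agent.Helper29.BL Pool.Agent.Helper42.SG Pool.Agent.Helper65.SG Pool.Agent.Helper5.UN
open Pool.Agent.Helper62.SGB

section

variable {K σ : Type} [Field K] [Fintype σ] {J : Type} [Fintype J] {p q : ℕ}

/-- the constant of the forms -/
noncomputable def BU (v : AbsoluteValue K ℝ) (c : Fin p → J → K) (y : Fin q → MvPolynomial σ K) : ℝ :=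
  (∏ l, wc v Finset.univ (c l)) * ∏ l, wc v (y l).support (fun m => coeff m (y l))

theorem le_prod_of {ι : Type} [Fintype ι] (x : ι → ℝ) (h : ∀ i, 1 ≤ x i) (i : ι) :
    x i ≤ ∏ i, x i := by
  classical
  rw [← Finset.mul_prod_erase Finset.univ _ (Finset.mem_univ i)]
  have h1 := h i
  have h2 := one_le_prod (Finset.univ.erase i) x h
  nlinarith

theorem one_le_BU (v : AbsoluteValue K ℝ) (c : Fin p → J → K) (y : Fin q → MvPolynomial σ K) :
    1 ≤ BU v c y :=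
  one_le_mul_of_one_le_of_one_le (one_le_prod _ _ fun _ => one_le_wc v _ _)
    (one_le_prod _ _ fun _ => one_le_wc v _ _)

theorem wc_le_BU_inl (v : AbsoluteValue K ℝ) (c : Fin p → J → K) (y : Fin q → MvPolynomial σ K)
    (l : Fin p) : wc v Finset.univ (c l) ≤ BU v c y := by
  have h1 := le_prod_of (fun l => wc v Finset.univ (c l)) (fun _ => one_le_wc v _ _) l
  have h2 := one_le_prod Finset.univ (fun l => wc v (y l).support (fun m => coeff m (y l)))
    fun _ => one_le_wc v _ _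
  have h3 : 0 ≤ ∏ l, wc v Finset.univ (c l) :=
    zero_le_one.trans (one_le_prod Finset.univ _ fun _ => one_le_wc v _ _)
  unfold BU
  nlinarith

theorem wc_le_BU_inr (v : AbsoluteValue K ℝ) (c : Fin p → J → K) (y : Fin q → MvPolynomial σ K)
    (l : Fin q) : wc v (y l).support (fun m => coeff m (y l)) ≤ BU v c y := by
  have h1 := le_prod_of (fun l => wc v (y l).support (fun m => coeff m (y l)))
    (fun _ => one_le_wc v _ _) l
  have h2 := one_le_prod Finset.univ (fun l => wc v Finset.univ (c l)) fun _ => one_le_wc v _ _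
  have h3 : 0 ≤ ∏ l, wc v (y l).support (fun m => coeff m (y l)) :=
    zero_le_one.trans (one_le_prod Finset.univ _ fun _ => one_le_wc v _ _)
  unfold BU
  nlinarith

theorem plc_BU [Height.AdmissibleAbsValues K] (c : Fin p → J → K)
    (y : Fin q → MvPolynomial σ K) : PlC fun v => BU v c y :=
  plc_mul (plc_prod _ _ fun _ _ => plc_wc _ _) (plc_prod _ _ fun _ _ => plc_wc _ _)

theorem plc_BH [Height.AdmissibleAbsValues K] {G : Type} [Fintype G]
    (H : (σ → Bool) → G → MvPolynomial σ K) : PlC fun v => BH v H := by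
  unfold BH
  exact plc_prod _ _ fun _ _ => plc_wc _ _

/-- the norm of the forms -/
theorem fr_uu {v : AbsoluteValue K ℝ} {A : Type} [CommRing A] [Algebra K A] {Nm : A → ℝ → Prop}
    (hN : NFr v Nm) (D : ℕ) (f : J → MvPolynomial σ K) (c : Fin p → J → K)
    (y : Fin q → MvPolynomial σ K) (hy : ∀ l i, degreeOf i (y l) ≤ D) (X : σ → A) (a : σ → ℝ)
    (ρ : ℝ) (ha : ∀ i, 1 ≤ a i) (hρ : 0 < ρ) (hX : ∀ i, Nm (X i) (a i))
    (hf : ∀ j, Nm (aeval X (f j)) (ρ * ∏ i, a i ^ D)) (s : Fin p ⊕ Fin q) :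
    Nm (aeval X (uu f c y s)) (BU v c y * (∏ i, a i ^ D) *
      (Sum.elim (fun _ => ρ) (fun _ => 1) s : ℝ)) := by
  have hA : 0 ≤ ∏ i, a i ^ D := Finset.prod_nonneg fun i _ => pow_nonneg (zero_le_one.trans (ha i)) _
  rcases s with l | l
  · have h1 := fr_wc hN Finset.univ (c l) (fun j => aeval X (f j)) (ρ * ∏ i, a i ^ D)
      (mul_nonneg hρ.le hA) fun j _ => hf j
    have h2 : aeval X (uu f c y (Sum.inl l)) = ∑ j, c l j • aeval X (f j) := by
      simp only [uu, Sum.elim_inl, map_sum, map_smul]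
    rw [h2]
    refine hN.mono _ _ _ h1 ?_
    simp only [Sum.elim_inl]
    have h3 := mul_le_mul_of_nonneg_right (wc_le_BU_inl v c y l) (mul_nonneg hρ.le hA)
    refine h3.trans (le_of_eq ?_)
    ring
  · have h1 := fr_poly hN X a ha hX (y l) D (hy l)
    refine hN.mono _ _ _ h1 ?_
    simp only [Sum.elim_inr, mul_one]
    exact mul_le_mul_of_nonneg_right (wc_le_BU_inr v c y l) hA

/-- the norm of the polynomials of the representation -/
theorem fr_ee {v : AbsoluteValue K ℝ} {A : Type} [CommRing A] [Algebra K A] {Nm : A → ℝ → Prop}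
    (hN : NFr v Nm) (D : ℕ) (f : J → MvPolynomial σ K) (c : Fin p → J → K)
    (y : Fin q → MvPolynomial σ K) (hy : ∀ l i, degreeOf i (y l) ≤ D) (X : σ → A) (a : σ → ℝ)
    (ρ : ℝ) (ha : ∀ i, 1 ≤ a i) (hρ : 0 < ρ) (hX : ∀ i, Nm (X i) (a i))
    (hf : ∀ j, Nm (aeval X (f j)) (ρ * ∏ i, a i ^ D)) (t M N : ℕ) (ht : t * D + M ≤ N)
    (x : Et (Fin p ⊕ Fin q) t × (σ → Fin (M + 1))) :
    Nm (aeval X (ee (uu f c y) t M x)) (BU v c y ^ t * (∏ i, a i ^ N) * ρ ^ grd x) := by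
  have hB := one_le_BU v c y
  have hA0 : ∀ i, 0 ≤ a i := fun i => zero_le_one.trans (ha i)
  have h1 := fr_prod hN Finset.univ (fun s => aeval X (uu f c y s) ^ (x.1.1 s : ℕ)) _
    fun s _ => fr_pow hN (fr_uu hN D f c y hy X a ρ ha hρ hX hf s) (x.1.1 s : ℕ)
  have h2 := hN.mul _ _ _ _ h1 (fr_mono hN X a hX (toF x.2))
  have h3 : aeval X (ee (uu f c y) t M x) = (∏ s, aeval X (uu f c y s) ^ (x.1.1 s : ℕ)) *
      aeval X (monomial (toF x.2) (1 : K)) := by
    unfold ee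
    rw [map_mul, map_prod]
    simp only [map_pow]
  rw [h3]
  refine hN.mono _ _ _ h2 ?_
  have h4 : ∏ s : Fin p ⊕ Fin q, (BU v c y * (∏ i, a i ^ D) *
      (Sum.elim (fun _ => ρ) (fun _ => 1) s : ℝ)) ^ (x.1.1 s : ℕ) =
      BU v c y ^ t * (∏ i, a i ^ D) ^ t * ρ ^ grd x := by
    simp only [mul_pow]
    rw [Finset.prod_mul_distrib, Finset.prod_mul_distrib, Finset.prod_pow_eq_pow_sum,
      Finset.prod_pow_eq_pow_sum, x.1.2]
    congr 1
    rw [Fintype.prod_sum_type]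
    simp only [Sum.elim_inl, Sum.elim_inr, one_pow, Finset.prod_const_one, mul_one]
    rw [Finset.prod_pow_eq_pow_sum]
    rfl
  rw [h4]
  have h5 : (∏ i, a i ^ D) ^ t * ∏ i, a i ^ toF x.2 i ≤ ∏ i, a i ^ N := by
    rw [← Finset.prod_pow, ← Finset.prod_mul_distrib]
    refine Finset.prod_le_prod (fun i _ => mul_nonneg (pow_nonneg (pow_nonneg (hA0 i) _) _)
      (pow_nonneg (hA0 i) _)) fun i _ => ?_
    rw [← pow_mul, ← pow_add]
    refine pow_le_pow_right₀ (ha i) ?_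
    have h6 : toF x.2 i ≤ M := Nat.le_of_lt_succ (x.2 i).isLt
    have h7 : D * t = t * D := mul_comm _ _
    omega
  have h6 : 0 ≤ BU v c y ^ t * ρ ^ grd x :=
    mul_nonneg (pow_nonneg (by linarith) _) (pow_nonneg hρ.le _)
  calc BU v c y ^ t * (∏ i, a i ^ D) ^ t * ρ ^ grd x * ∏ i, a i ^ toF x.2 i
      = (BU v c y ^ t * ρ ^ grd x) * ((∏ i, a i ^ D) ^ t * ∏ i, a i ^ toF x.2 i) := by ring
    _ ≤ (BU v c y ^ t * ρ ^ grd x) * ∏ i, a i ^ N := mul_le_mul_of_nonneg_left h5 h6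
    _ = _ := by ring

end

/-- the case `D ≥ 1` -/
theorem cen_pos (K : Type) [Field K] [NumberField K] (σ : Type) [Fintype σ] (J : Type) [Fintype J]
    (D s : ℕ) (f : J → MvPolynomial σ K) (hs : s + 1 ≤ Fintype.card σ) (hD : 1 ≤ D)
    (hf : ∀ j i, degreeOf i (f j) ≤ D) (hc : CodimGT D f s) :
    ∃ (c d : ℕ) (B : AbsoluteValue K ℝ → ℝ), 1 ≤ c ∧ 0 < d ∧ PlC B ∧
      ∀ N : ℕ, ∃ (T : Type) (_ : Fintype T) (gr : T → ℕ) (E : T → MvPolynomial σ K)
        (r : T → (σ →₀ ℕ) → K),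
        Fintype.card T ≤ c ^ (N + 1) ∧
        (∀ k : ℕ, Nat.card {t : T // gr t < k} ≤
          c * k ^ (s + 1) * (N + 1) ^ (Fintype.card σ - (s + 1))) ∧
        (∀ v t g, v (r t g) ≤ B v ^ (N + 1)) ∧
        (∀ t g, IsIntegral ℤ ((d : K) ^ (N + 1) * r t g)) ∧
        (∀ g : σ →₀ ℕ, (∀ i, g i ≤ N) → monomial g 1 = ∑ t, C (r t g) * E t) ∧
        ∀ (v : AbsoluteValue K ℝ) (A : Type) [CommRing A] [Algebra K A] (Nm : A → ℝ → Prop),
          NFr v Nm → ∀ (X : σ → A) (a : σ → ℝ) (ρ : ℝ), (∀ i, 1 ≤ a i) → 0 < ρ → ρ ≤ 1 →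
          (∀ i, Nm (X i) (a i)) → (∀ j, Nm (aeval X (f j)) (ρ * ∏ i, a i ^ D)) →
          ∀ t, Nm (aeval X (E t)) (B v ^ (N + 1) * (∏ i, a i ^ N) * ρ ^ gr t) := by
  classical
  have hmul := exists_mul D s f hf hc hs
  obtain ⟨q, hq⟩ : ∃ q, q = Fintype.card σ - (s + 1) := ⟨_, rfl⟩
  rw [← hq] at hmul
  rw [← hq]
  obtain ⟨c, y, k₁, H, hDk, hk1, hy, hHd, hH⟩ := hmul
  obtain ⟨d, hd0, hd'⟩ := exists_den_nat (K := K)
    ((Finset.univ : Finset ((σ → Bool) × (Fin (s + 1) ⊕ Fin (q + 1)))).biUnion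
      (fun x => (H x.1 x.2).support.image (fun b => (x, b))))
    (fun x => coeff x.2 (H x.1.1 x.1.2))
  have hd : ∀ a t b, IsIntegral ℤ ((d : K) * coeff b (H a t)) := by
    intro a t b
    by_cases hb : b ∈ (H a t).support
    · exact hd' ((a, t), b) (Finset.mem_biUnion.2 ⟨(a, t), Finset.mem_univ _,
        Finset.mem_image.2 ⟨b, hb, rfl⟩⟩)
    · rw [notMem_support_iff.1 hb, mul_zero]
      exact isIntegral_zero
  set g₀ : ℕ := Fintype.card (Fin (s + 1) ⊕ Fin (q + 1)) with hg₀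
  set L : ℕ := 2 * k₁ + D + 1 with hL
  have hL1 : 1 ≤ L := by omega
  refine ⟨2 ^ g₀ * L ^ Fintype.card σ, d,
    fun v => (cst v ((g₀ : ℝ) + 1) * BH v H) * BU v c y, ?_, hd0, ?_, ?_⟩
  · exact Nat.mul_pos (Nat.pow_pos two_pos) (Nat.pow_pos hL1)
  · refine plc_mul (plc_mul (plc_cst ?_) (plc_BH H)) (plc_BU c y)
    have : (0 : ℝ) ≤ (g₀ : ℝ) := Nat.cast_nonneg _
    linarith
  intro N
  set t : ℕ := (N - 2 * k₁) / D with ht
  set M : ℕ := N - t * D with hM
  have ht1 : t * D ≤ N - 2 * k₁ := Nat.div_mul_le_self _ _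
  have ht2 : t ≤ t * D := Nat.le_mul_of_pos_right _ hD
  have htN : t ≤ N := by omega
  have hML : M + 1 ≤ L := by
    have h1 := Nat.div_add_mod (N - 2 * k₁) D
    have h2 := Nat.mod_lt (N - 2 * k₁) hD
    rw [← ht] at h1
    have h3 : D * t = t * D := mul_comm _ _
    omega
  refine ⟨Et (Fin (s + 1) ⊕ Fin (q + 1)) t × (σ → Fin (M + 1)), inferInstance, grd,
    ee (uu f c y) t M, rr k₁ H t M, ?_, ?_, ?_, ?_, ?_, ?_⟩
  · refine (card_T t M).trans ?_
    rw [mul_pow]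
    refine Nat.mul_le_mul ?_ ?_
    · have h1 : t + 1 ≤ 2 ^ (N + 1) := by
        have := (N + 1).lt_two_pow_self
        omega
      calc (t + 1) ^ g₀ ≤ (2 ^ (N + 1)) ^ g₀ := Nat.pow_le_pow_left h1 _
        _ = (2 ^ g₀) ^ (N + 1) := by rw [← pow_mul, ← pow_mul, mul_comm]
    · calc (M + 1) ^ Fintype.card σ ≤ L ^ Fintype.card σ := Nat.pow_le_pow_left hML _
        _ ≤ (L ^ Fintype.card σ) ^ (N + 1) := Nat.le_self_pow (by omega) _
  · intro k
    refine (bad_count (σ := σ) (s + 1) q t M k).trans ?_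
    calc k ^ (s + 1) * ((t + 1) ^ q * (M + 1) ^ Fintype.card σ)
        ≤ k ^ (s + 1) * ((N + 1) ^ q * L ^ Fintype.card σ) := by
          refine Nat.mul_le_mul le_rfl (Nat.mul_le_mul (Nat.pow_le_pow_left (by omega) _)
            (Nat.pow_le_pow_left hML _))
      _ = L ^ Fintype.card σ * k ^ (s + 1) * (N + 1) ^ q := by ring
      _ ≤ 2 ^ g₀ * L ^ Fintype.card σ * k ^ (s + 1) * (N + 1) ^ q := by
          refine Nat.mul_le_mul (Nat.mul_le_mul ?_ le_rfl) le_rfl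
          exact Nat.le_mul_of_pos_left _ (Nat.pow_pos two_pos)
  · intro v x g
    have h1 := rr_le v k₁ H t M x g
    have hc1 : 1 ≤ cst v ((g₀ : ℝ) + 1) := one_le_cst v (by
      have : (0 : ℝ) ≤ (g₀ : ℝ) := Nat.cast_nonneg _
      linarith)
    have h2 := one_le_BH v H
    have h3 := one_le_BU v c y
    have h4 : 1 ≤ cst v ((g₀ : ℝ) + 1) * BH v H := one_le_mul_of_one_le_of_one_le hc1 h2
    refine h1.trans ?_
    calc (cst v ((g₀ : ℝ) + 1) * BH v H) ^ t
        ≤ (cst v ((g₀ : ℝ) + 1) * BH v H * BU v c y) ^ t := by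
          refine pow_le_pow_left₀ (by linarith) ?_ _
          nlinarith
      _ ≤ _ := pow_le_pow_right₀ (one_le_mul_of_one_le_of_one_le h4 h3) (by omega)
  · intro x g
    have h1 := rr_integral d k₁ H hd t M x g
    have h2 : (d : K) ^ (N + 1) * rr k₁ H t M x g =
        (d : K) ^ (N + 1 - t) * ((d : K) ^ t * rr k₁ H t M x g) := by
      rw [← mul_assoc, ← pow_add]
      congr 2
      omega
    rw [h2]
    refine IsIntegral.mul (IsIntegral.pow ?_ _) h1
    exact isIntegral_algebraMap (R := ℤ) (x := (d : ℤ)) |> fun h => by simpa using h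
  · intro g hg
    refine cen_identity k₁ H (uu f c y) hH g t M fun w i => ?_
    refine LW_degree D k₁ hD H hk1 hHd N _ (fun i => ?_) t ht1 w i
    rw [degreeOf_monomial_eq _ _ one_ne_zero]
    exact hg i
  · intro v A _ _ Nm hN X a ρ ha hρ hρ1 hX hfX x
    have h1 := fr_ee hN D f c y hy X a ρ ha hρ hX hfX t M N (by omega) x
    refine hN.mono _ _ _ h1 ?_
    have hc1 : 1 ≤ cst v ((g₀ : ℝ) + 1) := one_le_cst v (by
      have : (0 : ℝ) ≤ (g₀ : ℝ) := Nat.cast_nonneg _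
      linarith)
    have h2 := one_le_BH v H
    have h3 := one_le_BU v c y
    have h4 : 1 ≤ cst v ((g₀ : ℝ) + 1) * BH v H := one_le_mul_of_one_le_of_one_le hc1 h2
    have h5 : BU v c y ^ t ≤ (cst v ((g₀ : ℝ) + 1) * BH v H * BU v c y) ^ (N + 1) := by
      calc BU v c y ^ t ≤ (cst v ((g₀ : ℝ) + 1) * BH v H * BU v c y) ^ t := by
            refine pow_le_pow_left₀ (by linarith) ?_ _
            nlinarith
        _ ≤ _ := pow_le_pow_right₀ (one_le_mul_of_one_le_of_one_le h4 h3) (by omega)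
    have h6 : 0 ≤ ∏ i, a i ^ N := Finset.prod_nonneg fun i _ =>
      pow_nonneg (zero_le_one.trans (ha i)) _
    have h7 : 0 ≤ ρ ^ grd x := pow_nonneg hρ.le _
    exact mul_le_mul_of_nonneg_right (mul_le_mul_of_nonneg_right h5 h6) h7

end Pool.Agent.Helper92.PN
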