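import Pool.Agent.Helper92.PN.Iter
import Pool.Agent.Helper65.SG.Tay
import Pool.Agent.Helper62.SGB.EPHI

/-!
# CEN, part 5: estimates in norm frames
-/

set_option autoImplicit false

open MvPolynomial

namespace Pool.Agent.Helper92.PN

open Pool.Agent.Helper29.BL Pool.Agent.Helper42.SG

section frame

variable {K : Type} [Field K] {v : AbsoluteValue K ℝ} {A : Type} [CommRing A] [Algebra K A]
  {N : A → ℝ → Prop}

theorem fr_zero (hN : NFr v N) {T : ℝ} (hT : 0 ≤ T) : N 0 T := by
  have := hN.const 0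
  rw [map_zero, map_zero] at this
  exact hN.mono _ _ _ this hT

theorem fr_smul (hN : NFr v N) (c : K) {Q : A} {B : ℝ} (hQ : N Q B) : N (c • Q) (v c * B) := by
  rw [Algebra.smul_def]
  exact hN.mul _ _ _ _ (hN.const c) hQ

theorem fr_sum (hN : NFr v N) {ι : Type} (s : Finset ι) (c : ι → K) (Q : ι → A) (B : ℝ)
    (hB : 0 ≤ B) (hQ : ∀ i ∈ s, N (Q i) B) : N (∑ i ∈ s, c i • Q i) ((∑ i ∈ s, v (c i)) * B) := by
  classical
  induction s using Finset.induction_on with
  | empty =>
      simp only [Finset.sum_empty, zero_mul]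
      exact fr_zero hN le_rfl
  | insert a s ha ih =>
      rw [Finset.sum_insert ha, Finset.sum_insert ha, add_mul]
      exact hN.add _ _ _ _ (fr_smul hN _ (hQ a (Finset.mem_insert_self a s)))
        (ih fun i hi => hQ i (Finset.mem_insert_of_mem hi))

theorem fr_sum_na (hN : NFr v N) (hv : IsNonarchimedean v) {ι : Type} (s : Finset ι) (c : ι → K)
    (Q : ι → A) (B S : ℝ) (hB : 0 ≤ B) (hS : 0 ≤ S) (hc : ∀ i ∈ s, v (c i) ≤ S)
    (hQ : ∀ i ∈ s, N (Q i) B) : N (∑ i ∈ s, c i • Q i) (S * B) := by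
  classical
  induction s using Finset.induction_on with
  | empty =>
      simp only [Finset.sum_empty]
      exact fr_zero hN (mul_nonneg hS hB)
  | insert a s ha ih =>
      rw [Finset.sum_insert ha]
      have h1 : N (c a • Q a) (S * B) := hN.mono _ _ _
        (fr_smul hN (c a) (hQ a (Finset.mem_insert_self a s)))
        (mul_le_mul_of_nonneg_right (hc a (Finset.mem_insert_self a s)) hB)
      have h2 := ih (fun i hi => hc i (Finset.mem_insert_of_mem hi))
        fun i hi => hQ i (Finset.mem_insert_of_mem hi)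
      have h3 := hN.max hv _ _ _ _ h1 h2
      rwa [max_self] at h3

/-- the constant of a weighted sum -/
noncomputable def wc (v : AbsoluteValue K ℝ) {ι : Type} (s : Finset ι) (c : ι → K) : ℝ :=
  cst v (s.card + 1) * ∏ i ∈ s, Mv v (c i)

theorem one_le_prod_Mv (v : AbsoluteValue K ℝ) {ι : Type} (s : Finset ι) (c : ι → K) :
    1 ≤ ∏ i ∈ s, Mv v (c i) := by
  classical
  induction s using Finset.induction_on with
  | empty => simp
  | insert a s ha ih =>
      rw [Finset.prod_insert ha]
      exact one_le_mul_of_one_le_of_one_le (le_max_left _ _) ih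

theorem le_prod_Mv (v : AbsoluteValue K ℝ) {ι : Type} (s : Finset ι) (c : ι → K) (i : ι)
    (hi : i ∈ s) : v (c i) ≤ ∏ i ∈ s, Mv v (c i) := by
  classical
  rw [← Finset.mul_prod_erase s _ hi]
  have h1 : v (c i) ≤ Mv v (c i) := le_max_right _ _
  have h2 := one_le_prod_Mv v (s.erase i) c
  have h3 : 0 ≤ Mv v (c i) := zero_le_one.trans (le_max_left _ _)
  nlinarith

theorem one_le_wc (v : AbsoluteValue K ℝ) {ι : Type} (s : Finset ι) (c : ι → K) : 1 ≤ wc v s c := by
  refine one_le_mul_of_one_le_of_one_le (one_le_cst v ?_) (one_le_prod_Mv v s c)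
  have : (0 : ℝ) ≤ s.card := Nat.cast_nonneg _
  linarith

theorem fr_wc (hN : NFr v N) {ι : Type} (s : Finset ι) (c : ι → K) (Q : ι → A) (B : ℝ)
    (hB : 0 ≤ B) (hQ : ∀ i ∈ s, N (Q i) B) : N (∑ i ∈ s, c i • Q i) (wc v s c * B) := by
  have hP := one_le_prod_Mv v s c
  by_cases hv : IsNonarchimedean v
  · unfold wc
    rw [cst_of_nonarch hv, one_mul]
    exact fr_sum_na hN hv s c Q B _ hB (by linarith) (fun i hi => le_prod_Mv v s c i hi) hQ
  · refine hN.mono _ _ _ (fr_sum hN s c Q B hB hQ) (mul_le_mul_of_nonneg_right ?_ hB)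
    unfold wc
    rw [cst_of_not_nonarch hv]
    calc ∑ i ∈ s, v (c i) ≤ ∑ _i ∈ s, ∏ i ∈ s, Mv v (c i) :=
          Finset.sum_le_sum fun i hi => le_prod_Mv v s c i hi
      _ = (s.card : ℝ) * ∏ i ∈ s, Mv v (c i) := by
          rw [Finset.sum_const, nsmul_eq_mul]
      _ ≤ _ := mul_le_mul_of_nonneg_right (by linarith) (by linarith)

theorem fr_one (hN : NFr v N) : N 1 1 := by
  have := hN.const 1
  simpa using this

theorem fr_pow (hN : NFr v N) {f : A} {S : ℝ} (h : N f S) (k : ℕ) : N (f ^ k) (S ^ k) := by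
  induction k with
  | zero =>
      rw [pow_zero, pow_zero]
      exact fr_one hN
  | succ k ih =>
      rw [pow_succ, pow_succ]
      exact hN.mul _ _ _ _ ih h

theorem fr_prod (hN : NFr v N) {ι : Type} (s : Finset ι) (f : ι → A) (S : ι → ℝ)
    (h : ∀ i ∈ s, N (f i) (S i)) : N (∏ i ∈ s, f i) (∏ i ∈ s, S i) := by
  classical
  induction s using Finset.induction_on with
  | empty =>
      simp only [Finset.prod_empty]
      exact fr_one hN
  | insert a s ha ih =>
      rw [Finset.prod_insert ha, Finset.prod_insert ha]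
      exact hN.mul _ _ _ _ (h a (Finset.mem_insert_self a s))
        (ih fun i hi => h i (Finset.mem_insert_of_mem hi))

/-- a monomial in a frame -/
theorem fr_mono {σ : Type} [Fintype σ] (hN : NFr v N) (X : σ → A) (a : σ → ℝ)
    (hX : ∀ i, N (X i) (a i)) (m : σ →₀ ℕ) : N (aeval X (monomial m (1 : K))) (∏ i, a i ^ m i) := by
  rw [aeval_monomial, map_one, one_mul, Finsupp.prod_fintype _ _ (fun i => pow_zero _)]
  exact fr_prod hN _ _ _ fun i _ => fr_pow hN (hX i) _

/-- a polynomial of degrees `≤ D` in a frame -/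
theorem fr_poly {σ : Type} [Fintype σ] (hN : NFr v N) (X : σ → A) (a : σ → ℝ)
    (ha : ∀ i, 1 ≤ a i) (hX : ∀ i, N (X i) (a i)) (f : MvPolynomial σ K) (D : ℕ)
    (hf : ∀ i, degreeOf i f ≤ D) :
    N (aeval X f) (wc v f.support (fun m => coeff m f) * ∏ i, a i ^ D) := by
  have h1 : aeval X f = ∑ m ∈ f.support, coeff m f • aeval X (monomial m (1 : K)) := by
    conv_lhs => rw [← support_sum_monomial_coeff f]
    rw [map_sum]
    refine Finset.sum_congr rfl fun m _ => ?_
    rw [← map_smul, smul_monomial, smul_eq_mul, mul_one]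
  rw [h1]
  have h0 : ∀ i, 0 ≤ a i := fun i => zero_le_one.trans (ha i)
  refine fr_wc hN _ _ _ _ (Finset.prod_nonneg fun i _ => pow_nonneg (h0 i) _) fun m hm => ?_
  refine hN.mono _ _ _ (fr_mono hN X a hX m) ?_
  exact Finset.prod_le_prod (fun i _ => pow_nonneg (h0 i) _) fun i _ =>
    pow_le_pow_right₀ (ha i) (deg_supp hf hm i)

end frame

section plc

variable {K : Type} [Field K] [Height.AdmissibleAbsValues K]

open Pool.Agent.Helper62.SGB

theorem plc_prod {ι : Type} (s : Finset ι) (B : ι → AbsoluteValue K ℝ → ℝ)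
    (h : ∀ i ∈ s, PlC (B i)) : PlC fun v => ∏ i ∈ s, B i v := by
  classical
  induction s using Finset.induction_on with
  | empty =>
      simp only [Finset.prod_empty]
      exact plc_one
  | insert a s ha ih =>
      simp only [Finset.prod_insert ha]
      exact plc_mul (h a (Finset.mem_insert_self a s))
        (ih fun i hi => h i (Finset.mem_insert_of_mem hi))

theorem plc_wc {ι : Type} (s : Finset ι) (c : ι → K) : PlC fun v => wc v s c := by
  unfold wc
  refine plc_mul (plc_cst ?_) (plc_prod s _ fun i _ => plc_Mv _)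
  have : (0 : ℝ) ≤ s.card := Nat.cast_nonneg _
  linarith

end plc

end Pool.Agent.Helper92.PN
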