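import Pool.Agent.Helper42.SG.Defs
import Pool.Agent.Helper5.UN.Defs

/-!
# Project HC/PN (MP_a41896_nt): the centre data `CEN` (section 2.2 of the paper of helper60)

`f_j`: polynomials of degrees `≤ D` in the variables `X_i`, `i ∈ σ`, whose common zeros in `(ℙ¹)^σ` have codimension
`≥ p` (`CodimGT D f (p - 1)`).  For every `N` the monomials `X^g` of degrees `≤ N` are combinations
`X^g = ∑_t r t g * E t` of polynomials `E t` with a grade `gr t`: `E t` vanishes of order `≥ gr t` along the centre (norm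
estimate with `ρ ^ gr t`), the number of `t` with `gr t < k` is `≤ c k^p (N+1)^(m-p)`.
-/

set_option autoImplicit false

open MvPolynomial

namespace Pool.Agent.Helper92.PN

open Pool.Agent.Helper29.BL Pool.Agent.Helper92.Ru Pool.Agent.Helper42.SG Pool.Agent.Helper5.UN

/-- CEN: the centre data. -/
def CEN : Prop :=
  ∀ (K : Type) [Field K] [NumberField K] (σ : Type) [Fintype σ] (J : Type) [Fintype J]
    (D p : ℕ) (f : J → MvPolynomial σ K), 1 ≤ p → p ≤ Fintype.card σ →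
    (∀ j i, degreeOf i (f j) ≤ D) → CodimGT D f (p - 1) →
    ∃ (c d : ℕ) (B : AbsoluteValue K ℝ → ℝ), 1 ≤ c ∧ 0 < d ∧ PlC B ∧
      ∀ N : ℕ, ∃ (T : Type) (_ : Fintype T) (gr : T → ℕ) (E : T → MvPolynomial σ K)
        (r : T → (σ →₀ ℕ) → K),
        Fintype.card T ≤ c ^ (N + 1) ∧
        (∀ k : ℕ, Nat.card {t : T // gr t < k} ≤ c * k ^ p * (N + 1) ^ (Fintype.card σ - p)) ∧
        (∀ v t g, v (r t g) ≤ B v ^ (N + 1)) ∧
        (∀ t g, IsIntegral ℤ ((d : K) ^ (N + 1) * r t g)) ∧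
        (∀ g : σ →₀ ℕ, (∀ i, g i ≤ N) → monomial g 1 = ∑ t, C (r t g) * E t) ∧
        ∀ (v : AbsoluteValue K ℝ) (A : Type) [CommRing A] [Algebra K A] (Nm : A → ℝ → Prop),
          NFr v Nm → ∀ (X : σ → A) (a : σ → ℝ) (ρ : ℝ), (∀ i, 1 ≤ a i) → 0 < ρ → ρ ≤ 1 →
          (∀ i, Nm (X i) (a i)) → (∀ j, Nm (aeval X (f j)) (ρ * ∏ i, a i ^ D)) →
          ∀ t, Nm (aeval X (E t)) (B v ^ (N + 1) * (∏ i, a i ^ N) * ρ ^ gr t)

end Pool.Agent.Helper92.PN
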