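import Pool.Agent.Helper92.PN.BlockRoth

/-!
# Corollaries of the block Roth lemma: blocks of equal size, two blocks, one block
-/

set_option autoImplicit false

open MvPolynomial

namespace Pool.Agent.Helper92.PN

open Pool.Agent.Helper92.Ru Pool.Agent.Helper42.SG Pool.Agent.Helper76.SGA

/-- a polynomial which involves only the variables of the range of `e`. -/
theorem restr {k : Type} [Field k] [NumberField k] {m s : ℕ} (e : Fin s → Fin m)
    (he : Function.Injective e) (D : ℕ) (A c : ℝ) (ξ : Fin m → k) (f : MvPolynomial (Fin m) k)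
    (hf : f ≠ 0) (hdeg : ∀ h, f.degreeOf h ≤ D) (hsup : ∀ h, h ∉ Set.range e → f.degreeOf h = 0)
    (hev : eval ξ f = 0) (hht : c * Real.log (PH f) ≤ A) :
    ∃ f' : MvPolynomial (Fin s) k, f' ≠ 0 ∧ (∀ i, f'.degreeOf i ≤ D) ∧
      eval (fun i => ξ (e i)) f' = 0 ∧ c * Real.log (PH f') ≤ A := by
  obtain ⟨f', hff, hd, hPH, -, -, hev'⟩ := Pool.Agent.Helper32.SGA.ren k s m e he f hsup
  refine ⟨f', ?_, ?_, ?_, ?_⟩
  · intro h
    apply hf
    rw [hff, h, map_zero]
  · intro i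
    rw [hd]
    exact hdeg _
  · rw [hev', hev]
  · rw [hPH]
    exact hht

/-- **Block Roth lemma**, `n` blocks of `s` variables: the variable `h` is in the block `h / s`. -/
theorem blockRoth_uniform (s n : ℕ) (k : Type) [Field k] [NumberField k] (σ : ℝ) (hσ : 0 < σ) :
    ∃ (D : ℕ) (Kc ω : ℝ), 1 ≤ Kc ∧ 0 < ω ∧ ω ≤ 1 ∧
    ∀ (d : ℕ → ℕ) (ξ : ℕ → k) (H W : ℝ) (p : MvPolynomial (Fin (s * n)) k),
      (∀ j < n, 1 ≤ d j ∧ (d j : ℝ) ≤ H) →
      (∀ j j' : ℕ, j < j' → j' < n → (d j' : ℝ) ≤ ω * d j) →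
      InvW (fun h : Fin (s * n) => d (h.val / s)) (fun h : Fin (s * n) => ξ h.val) H σ W p →
      ∃ j < n, ∃ f : MvPolynomial (Fin s) k, f ≠ 0 ∧ (∀ i, f.degreeOf i ≤ D) ∧
        eval (fun i : Fin s => ξ (s * j + i.val)) f = 0 ∧ d j * Real.log (PH f) ≤ Kc * H := by
  obtain ⟨D, Kc, ω, hK, hω, hω1, hB⟩ := blockRothG (s * n) k σ hσ
  refine ⟨D, Kc, ω, hK, hω, hω1, ?_⟩
  intro d ξ H W p hd hdd hinv
  have hlt : ∀ h : Fin (s * n), h.val / s < n := fun h =>
    Nat.div_lt_of_lt_mul h.isLt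
  obtain ⟨h₀, f, hf, hdeg, hsup, hev, hht⟩ := hB (fun h => h.val / s) d (fun h => ξ h.val) H W p
    (fun x y hxy => Nat.div_le_div_right hxy) (fun h => hd _ (hlt h))
    (fun h h' hh => hdd _ _ hh (hlt h')) hinv
  have hs : 0 < s := by
    rcases Nat.eq_zero_or_pos s with h | h
    · exfalso
      have := h₀.isLt
      simp only [h, Nat.zero_mul] at this
      omega
    · exact h
  have hn := hlt h₀
  have hj : ∀ i : Fin s, s * (h₀.val / s) + i.val < s * n := by
    intro i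
    have h1 := i.isLt
    calc s * (h₀.val / s) + i.val < s * (h₀.val / s) + s := by omega
      _ = s * (h₀.val / s + 1) := by ring
      _ ≤ s * n := Nat.mul_le_mul_left s hn
  obtain ⟨f', h1, h2, h3, h4⟩ := restr (fun i : Fin s => (⟨s * (h₀.val / s) + i.val, hj i⟩ :
      Fin (s * n))) (by
      intro x y hxy
      have := congrArg Fin.val hxy
      simp only at this
      exact Fin.ext (by omega)) D (Kc * H) (d (h₀.val / s)) (fun h => ξ h.val) f hf hdeg (by
      intro h hh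
      apply hsup
      intro hb
      apply hh
      refine ⟨⟨h.val % s, Nat.mod_lt _ hs⟩, ?_⟩
      apply Fin.ext
      simp only
      have h5 := Nat.div_add_mod h.val s
      rw [← hb]
      exact h5) hev hht
  exact ⟨h₀.val / s, hn, f', h1, h2, h3, h4⟩

/-- **Block Roth lemma**, two blocks of `n` and `w` variables with the weights `d₀ ≥ d₁ / ω`. -/
theorem blockRoth_two (n w : ℕ) (k : Type) [Field k] [NumberField k] (σ : ℝ) (hσ : 0 < σ) :
    ∃ (D : ℕ) (Kc ω : ℝ), 1 ≤ Kc ∧ 0 < ω ∧ ω ≤ 1 ∧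
    ∀ (d₀ d₁ : ℕ) (ξ : Fin (n + w) → k) (H W : ℝ) (p : MvPolynomial (Fin (n + w)) k),
      1 ≤ d₀ → 1 ≤ d₁ → (d₀ : ℝ) ≤ H → (d₁ : ℝ) ≤ ω * d₀ →
      InvW (fun h : Fin (n + w) => if h.val < n then d₀ else d₁) ξ H σ W p →
      (∃ f : MvPolynomial (Fin n) k, f ≠ 0 ∧ (∀ i, f.degreeOf i ≤ D) ∧
        eval (fun i => ξ (Fin.castAdd w i)) f = 0 ∧ d₀ * Real.log (PH f) ≤ Kc * H) ∨
      (∃ f : MvPolynomial (Fin w) k, f ≠ 0 ∧ (∀ i, f.degreeOf i ≤ D) ∧
        eval (fun i => ξ (Fin.natAdd n i)) f = 0 ∧ d₁ * Real.log (PH f) ≤ Kc * H) := by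
  obtain ⟨D, Kc, ω, hK, hω, hω1, hB⟩ := blockRothG (n + w) k σ hσ
  refine ⟨D, Kc, ω, hK, hω, hω1, ?_⟩
  intro d₀ d₁ ξ H W p h0 h1 hH hd hinv
  have hd10 : (d₁ : ℝ) ≤ d₀ := hd.trans (by
    have : (0 : ℝ) ≤ d₀ := Nat.cast_nonneg _
    nlinarith)
  obtain ⟨h₀, f, hf, hdeg, hsup, hev, hht⟩ := hB (fun h => if h.val < n then 0 else 1)
    (fun j => if j = 0 then d₀ else d₁) ξ H W p (by
      intro x y hxy
      have : x.val ≤ y.val := hxy
      simp only
      split_ifs <;> omega) (by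
      intro h
      by_cases hh : h.val < n
      · simp only [hh, if_true]
        exact ⟨h0, hH⟩
      · simp only [hh, if_false, one_ne_zero]
        exact ⟨h1, hd10.trans hH⟩) (by
      intro h h' hlt
      by_cases hh : h.val < n
      · by_cases hh' : h'.val < n
        · simp [hh, hh'] at hlt
        · simp only [hh, hh', if_true, if_false, one_ne_zero]
          exact hd
      · by_cases hh' : h'.val < n
        · simp [hh, hh'] at hlt
        · simp [hh, hh'] at hlt) (by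
      have h2 : (fun h : Fin (n + w) => (fun j => if j = 0 then d₀ else d₁)
          ((fun h : Fin (n + w) => if h.val < n then 0 else 1) h)) =
          (fun h : Fin (n + w) => if h.val < n then d₀ else d₁) := by
        funext h
        by_cases hh : h.val < n
        · simp [hh]
        · simp [hh]
      rw [h2]
      exact hinv)
  by_cases hh : h₀.val < n
  · left
    simp only [hh, if_true] at hht
    refine restr (Fin.castAdd w) (Fin.castAdd_injective n w) D _ _ ξ f hf hdeg ?_ hev hht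
    intro h hr
    apply hsup
    have hn : ¬ h.val < n := fun hlt => hr ⟨⟨h.val, hlt⟩, Fin.ext rfl⟩
    simp [hh, hn]
  · right
    simp only [hh, if_false, one_ne_zero] at hht
    refine restr (Fin.natAdd n) (Fin.natAdd_injective w n) D _ _ ξ f hf hdeg ?_ hev hht
    intro h hr
    apply hsup
    have hn : h.val < n := by
      by_contra hlt
      refine hr ⟨⟨h.val - n, by have := h.isLt; omega⟩, Fin.ext ?_⟩
      simp only [Fin.natAdd_mk]
      omega
    simp [hh, hn]

/-- **One block** of `n` variables: a polynomial of degrees `≤ d`, height `≤ A d`, order `≥ σ d` at `ξ` forces `ξ` on a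
hypersurface of bounded degree and height. -/
theorem blockRoth_one (n : ℕ) (k : Type) [Field k] [NumberField k] (σ A : ℝ) (hσ : 0 < σ) :
    ∃ (D : ℕ) (C : ℝ), ∀ (d : ℕ) (ξ : Fin n → k) (p : MvPolynomial (Fin n) k), 1 ≤ d → p ≠ 0 →
      (∀ h, p.degreeOf h ≤ d) → Real.log (PH p) ≤ A * d →
      IndGe (fun _ => d) ξ σ p →
      ∃ f : MvPolynomial (Fin n) k, f ≠ 0 ∧ (∀ i, f.degreeOf i ≤ D) ∧
        eval ξ f = 0 ∧ Real.log (PH f) ≤ C := by
  obtain ⟨D, Kc, ω, hK, hω, hω1, hB⟩ := blockRothG n k σ hσ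
  refine ⟨D, Kc * max 1 A, ?_⟩
  intro d ξ p hd hp hdeg hht hind
  have hd0 : (0 : ℝ) < d := by exact_mod_cast hd
  obtain ⟨h₀, f, hf, hdf, -, hev, hh⟩ := hB (fun _ => 0) (fun _ => d) ξ (max 1 A * d) 1 p
    (fun x y _ => le_rfl) (fun h => ⟨hd, by
      have : (1 : ℝ) ≤ max 1 A := le_max_left _ _
      nlinarith⟩) (fun h h' hlt => absurd hlt (lt_irrefl _))
    ⟨hp, one_pos, fun h => by
      rw [mul_one]
      exact_mod_cast hdeg h, by
      rw [mul_one]
      exact hht.trans (mul_le_mul_of_nonneg_right (le_max_right _ _) hd0.le), by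
      rw [mul_one]
      exact hind⟩
  refine ⟨f, hf, hdf, hev, ?_⟩
  have h1 : (d : ℝ) * Real.log (PH f) ≤ d * (Kc * max 1 A) := by
    refine hh.trans (le_of_eq ?_)
    ring
  exact le_of_mul_le_mul_left h1 hd0

/-- an irreducible factor which vanishes at `ξ`. -/
theorem irr_factor (n : ℕ) (k : Type) [Field k] [NumberField k] : ∃ C : ℝ, 0 ≤ C ∧
    ∀ (f : MvPolynomial (Fin n) k) (ξ : Fin n → k), f ≠ 0 → eval ξ f = 0 →
      ∃ g : MvPolynomial (Fin n) k, Irreducible g ∧ g ∣ f ∧ (∀ i, g.degreeOf i ≤ f.degreeOf i) ∧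
        eval ξ g = 0 ∧ Real.log (PH g) ≤ Real.log (PH f) + C * ∑ h, (f.degreeOf h : ℝ) := by
  classical
  obtain ⟨C, hC, hgel⟩ := gel k n
  refine ⟨C, hC, ?_⟩
  intro f ξ hf hev
  have hnu : ¬ IsUnit f := by
    intro hu
    have h1 := hu.map (eval ξ)
    rw [hev] at h1
    exact not_isUnit_zero h1
  obtain ⟨s, hs, u, hu⟩ := UniqueFactorizationMonoid.exists_prime_factors f hf
  have h2 : eval ξ s.prod = 0 := by
    have h3 := congrArg (eval ξ) hu
    rw [map_mul, hev] at h3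
    rcases mul_eq_zero.1 h3 with h4 | h4
    · exact h4
    · exfalso
      have h5 := u.isUnit.map (eval ξ)
      rw [h4] at h5
      exact not_isUnit_zero h5
  have h3 : ∃ g ∈ s, eval ξ g = 0 := by
    rw [map_multiset_prod, Multiset.prod_eq_zero_iff, Multiset.mem_map] at h2
    exact h2
  obtain ⟨g, hg, hge⟩ := h3
  have hgp := hs g hg
  have hgd : g ∣ f := (Multiset.dvd_prod hg).trans ⟨↑u, hu.symm⟩
  obtain ⟨q, hq⟩ := hgd
  have hq0 : q ≠ 0 := by
    rintro rfl
    exact hf (by rw [hq, mul_zero])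
  refine ⟨g, hgp.irreducible, ⟨q, hq⟩, ?_, hge, ?_⟩
  · intro i
    rw [hq, degreeOf_mul_eq hgp.ne_zero hq0]
    exact Nat.le_add_right _ _
  · have h4 := hgel Bool Finset.univ (fun t => if t then g else q) (by
      intro i _
      cases i
      · simpa using hq0
      · simpa using hgp.ne_zero)
    rw [Fintype.sum_bool, Fintype.prod_bool] at h4
    simp only [if_true, Bool.false_eq_true, if_false, ← hq] at h4
    have h5 : 0 ≤ Real.log (PH q) := Pool.Agent.Helper24.SGA.log_PH_nonneg q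
    linarith

end Pool.Agent.Helper92.PN
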