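import Pool.Agent.Helper92.PN.Words
import Pool.Agent.Helper29.BL.RH

/-!
# CEN, part 7: assembly
-/

set_option autoImplicit false

open MvPolynomial

namespace Pool.Agent.Helper92.PN

open Pool.Agent.Helper29.BL Pool.Agent.Helper42.SG Pool.Agent.Helper65.SG Pool.Agent.Helper5.UN
open Pool.Agent.Helper62.SGB

section asm

variable {K σ G : Type} [Field K] [Fintype σ] [Fintype G]

/-- the exponent of an element of the box -/
noncomputable def toF {M : ℕ} (b : σ → Fin (M + 1)) : σ →₀ ℕ :=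
  Finsupp.equivFunOnFinite.symm (fun i => (b i : ℕ))

theorem toF_apply {M : ℕ} (b : σ → Fin (M + 1)) (i : σ) : toF b i = (b i : ℕ) := rfl

theorem toF_injective (M : ℕ) : Function.Injective (toF : (σ → Fin (M + 1)) → σ →₀ ℕ) := by
  intro b c h
  funext i
  apply Fin.ext
  rw [← toF_apply, ← toF_apply, h]

theorem expand_box [DecidableEq σ] (p : MvPolynomial σ K) (M : ℕ) (hp : ∀ i, degreeOf i p ≤ M) :
    ∑ b : σ → Fin (M + 1), C (coeff (toF b) p) * monomial (toF b) 1 = p := by
  classical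
  have h1 : ∀ b : σ → Fin (M + 1), C (coeff (toF b) p) * monomial (toF b) (1 : K) =
      monomial (toF b) (coeff (toF b) p) := by
    intro b
    rw [C_mul_monomial, mul_one]
  simp only [h1]
  conv_rhs => rw [← support_sum_monomial_coeff p]
  rw [← Finset.sum_image (f := fun m => monomial m (coeff m p)) (s := Finset.univ) (g := toF)
    (fun b _ c _ h => toF_injective M h)]
  symm
  refine Finset.sum_subset ?_ ?_
  · intro m hm
    rw [Finset.mem_image]
    refine ⟨fun i => ⟨m i, Nat.lt_succ_of_le (deg_supp hp hm i)⟩, Finset.mem_univ _, ?_⟩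
    ext i
    rfl
  · intro m _ hm
    rw [notMem_support_iff.1 hm, monomial_zero]

/-- the coefficients of the representation -/
noncomputable def rr [DecidableEq G] (k₁ : ℕ) (H : (σ → Bool) → G → MvPolynomial σ K) (t M : ℕ)
    (x : Et G t × (σ → Fin (M + 1))) (g : σ →₀ ℕ) : K :=
  ∑ w : Fin t → G, if cw w = x.1 then coeff (toF x.2) (LW k₁ H t w (monomial g 1)) else 0

/-- the polynomials of the representation -/
noncomputable def ee (u : G → MvPolynomial σ K) (t M : ℕ) (x : Et G t × (σ → Fin (M + 1))) :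
    MvPolynomial σ K := (∏ s, u s ^ (x.1.1 s : ℕ)) * monomial (toF x.2) 1

theorem sum3 {α β γ R : Type} [AddCommMonoid R] [Fintype α] [Fintype β] [Fintype γ]
    (F : α → β → γ → R) : ∑ a, ∑ b, ∑ c, F a b c = ∑ c, ∑ b, ∑ a, F a b c := by
  rw [Finset.sum_comm]
  rw [Finset.sum_congr rfl fun b _ => Finset.sum_comm, Finset.sum_comm]

theorem cen_identity [DecidableEq σ] [DecidableEq G] (k₁ : ℕ)
    (H : (σ → Bool) → G → MvPolynomial σ K) (u : G → MvPolynomial σ K)
    (hH : ∀ a : σ → Bool, ∑ t, H a t * u t = monomial (fl a k₁ 0) 1) (g : σ →₀ ℕ) (t M : ℕ)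
    (hdeg : ∀ w i, degreeOf i (LW k₁ H t w (monomial g 1)) ≤ M) :
    monomial g 1 = ∑ x, C (rr k₁ H t M x g) * ee u t M x := by
  have h1 := word_sum k₁ H u hH (monomial g 1) t
  have h2 : ∀ w : Fin t → G, (∏ i, u (w i)) * LW k₁ H t w (monomial g 1) =
      ∑ b : σ → Fin (M + 1), C (coeff (toF b) (LW k₁ H t w (monomial g 1))) *
        ee u t M (cw w, b) := by
    intro w
    conv_lhs => rw [← expand_box (LW k₁ H t w (monomial g 1)) M (hdeg w)]
    rw [Finset.mul_sum, prod_word]
    refine Finset.sum_congr rfl fun b _ => ?_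
    unfold ee cw
    simp only
    ring
  rw [← h1]
  simp only [h2]
  rw [Fintype.sum_prod_type]
  unfold rr
  simp only [map_sum, Finset.sum_mul]
  rw [sum3]
  refine Finset.sum_congr rfl fun w _ => ?_
  refine Finset.sum_congr rfl fun b _ => ?_
  rw [Finset.sum_eq_single (cw w)]
  · rw [if_pos rfl]
  · intro η _ hη
    rw [if_neg (fun h => hη h.symm), map_zero, zero_mul]
  · intro h
    exact absurd (Finset.mem_univ _) h

theorem card_T [DecidableEq σ] [DecidableEq G] (t M : ℕ) :
    Fintype.card (Et G t × (σ → Fin (M + 1))) ≤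
      (t + 1) ^ Fintype.card G * (M + 1) ^ Fintype.card σ := by
  rw [Fintype.card_prod]
  refine Nat.mul_le_mul ?_ (by simp)
  refine (Fintype.card_subtype_le _).trans ?_
  simp

theorem rr_le [DecidableEq G] (v : AbsoluteValue K ℝ) (k₁ : ℕ)
    (H : (σ → Bool) → G → MvPolynomial σ K) (t M : ℕ) (x : Et G t × (σ → Fin (M + 1)))
    (g : σ →₀ ℕ) : v (rr k₁ H t M x g) ≤ (cst v (Fintype.card G + 1) * BH v H) ^ t := by
  have hB := one_le_BH v H
  have hB0 : 0 ≤ BH v H ^ t := pow_nonneg (by linarith) _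
  have h1 := abv_sum_le v (Finset.univ : Finset (Fin t → G))
    (fun w => if cw w = x.1 then coeff (toF x.2) (LW k₁ H t w (monomial g 1)) else 0)
    (B := BH v H ^ t) (c := ((Fintype.card G + 1 : ℕ) : ℝ) ^ t) hB0 (by
      intro w _
      split_ifs
      · exact coeff_LW_le v k₁ H g t w _
      · rw [map_zero]
        exact hB0) (by
      rw [Finset.card_univ, Fintype.card_pi_const]
      push_cast
      exact pow_le_pow_left₀ (Nat.cast_nonneg _) (by linarith) _)
  unfold rr
  refine h1.trans ?_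
  rw [mul_pow]
  refine mul_le_mul_of_nonneg_right ?_ hB0
  by_cases hv : IsNonarchimedean v
  · rw [cst_of_nonarch hv, cst_of_nonarch hv, one_pow]
  · rw [cst_of_not_nonarch hv, cst_of_not_nonarch hv]
    push_cast
    exact le_rfl

theorem rr_integral [NumberField K] [DecidableEq G] (d : ℕ) (k₁ : ℕ)
    (H : (σ → Bool) → G → MvPolynomial σ K)
    (hd : ∀ a s b, IsIntegral ℤ ((d : K) * coeff b (H a s))) (t M : ℕ)
    (x : Et G t × (σ → Fin (M + 1))) (g : σ →₀ ℕ) :
    IsIntegral ℤ ((d : K) ^ t * rr k₁ H t M x g) := by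
  classical
  unfold rr
  rw [Finset.mul_sum]
  refine IsIntegral.sum _ fun w _ => ?_
  split_ifs
  · refine coeff_LW_integral d k₁ H hd _ (fun b => ?_) t w _
    rw [coeff_monomial]
    split_ifs
    · exact isIntegral_one
    · exact isIntegral_zero
  · rw [mul_zero]
    exact isIntegral_zero

end asm

section bad

variable {σ : Type} [Fintype σ] [DecidableEq σ]

/-- the grade -/
def grd {p q t M : ℕ} (x : Et (Fin p ⊕ Fin q) t × (σ → Fin (M + 1))) : ℕ :=
  ∑ l : Fin p, (x.1.1 (Sum.inl l) : ℕ)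

theorem bad_count (p q t M k : ℕ) :
    Nat.card {x : Et (Fin p ⊕ Fin (q + 1)) t × (σ → Fin (M + 1)) // grd x < k} ≤
      k ^ p * ((t + 1) ^ q * (M + 1) ^ Fintype.card σ) := by
  classical
  have hlt : ∀ (x : {x : Et (Fin p ⊕ Fin (q + 1)) t × (σ → Fin (M + 1)) // grd x < k})
      (l : Fin p), (x.1.1.1 (Sum.inl l) : ℕ) < k := by
    intro x l
    refine lt_of_le_of_lt ?_ x.2
    unfold grd
    exact Finset.single_le_sum (f := fun l : Fin p => (x.1.1.1 (Sum.inl l) : ℕ))
      (fun _ _ => Nat.zero_le _) (Finset.mem_univ l)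
  let φ : {x : Et (Fin p ⊕ Fin (q + 1)) t × (σ → Fin (M + 1)) // grd x < k} →
      (Fin p → Fin k) × ((Fin q → Fin (t + 1)) × (σ → Fin (M + 1))) := fun x =>
    (fun l => ⟨x.1.1.1 (Sum.inl l), hlt x l⟩, fun l => x.1.1.1 (Sum.inr l.castSucc), x.1.2)
  have hφ : Function.Injective φ := by
    rintro ⟨⟨⟨η, hη⟩, b⟩, hx⟩ ⟨⟨⟨η', hη'⟩, b'⟩, hx'⟩ h
    have h1 : ∀ l : Fin p, (η (Sum.inl l) : ℕ) = η' (Sum.inl l) := fun l =>
      congrArg (fun y : (Fin p → Fin k) × ((Fin q → Fin (t + 1)) × (σ → Fin (M + 1))) =>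
        ((y.1 l : Fin k) : ℕ)) h
    have h2 : ∀ l : Fin q, (η (Sum.inr l.castSucc) : ℕ) = η' (Sum.inr l.castSucc) := fun l =>
      congrArg (fun y : (Fin p → Fin k) × ((Fin q → Fin (t + 1)) × (σ → Fin (M + 1))) =>
        ((y.2.1 l : Fin (t + 1)) : ℕ)) h
    have h3 : b = b' := congrArg (fun y : (Fin p → Fin k) ×
      ((Fin q → Fin (t + 1)) × (σ → Fin (M + 1))) => y.2.2) h
    subst h3
    have h4 : η = η' := by
      funext s
      apply Fin.ext
      rcases s with l | l
      · exact h1 l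
      · rcases Fin.eq_castSucc_or_eq_last l with ⟨j, rfl⟩ | rfl
        · exact h2 j
        · rw [Fintype.sum_sum_type, Fin.sum_univ_castSucc] at hη hη'
          simp only [h1, h2] at hη
          omega
    subst h4
    rfl
  have h1 := Nat.card_le_card_of_injective φ hφ
  refine h1.trans (le_of_eq ?_)
  rw [Nat.card_eq_fintype_card]
  simp

end bad

end Pool.Agent.Helper92.PN
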