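import Pool.Agent.Helper92.PN.Gens
import Pool.Agent.Helper54.UN.HILB
import Pool.Agent.Helper16.UN.HVB

/-!
# CEN, part 2: charts
-/

set_option autoImplicit false

open MvPolynomial

namespace Pool.Agent.Helper92.PN

open Pool.Agent.Helper5.UN

section

variable {K σ : Type} [Field K] [Fintype σ]

/-- the exponent of a monomial of multidegree `(E, .., E)` in the chart `a`. -/
noncomputable def fl (a : σ → Bool) (E : ℕ) (m : σ →₀ ℕ) : σ →₀ ℕ :=
  Finsupp.equivFunOnFinite.symm (fun i => if a i then m i else E - m i)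

theorem fl_apply (a : σ → Bool) (E : ℕ) (m : σ →₀ ℕ) (i : σ) :
    fl a E m i = if a i then m i else E - m i := rfl

theorem fl_fl (a : σ → Bool) (E : ℕ) (m : σ →₀ ℕ) (hm : ∀ i, m i ≤ E) : fl a E (fl a E m) = m := by
  ext i
  have := hm i
  simp only [fl_apply]
  split_ifs
  · rfl
  · omega

theorem fl_add (a : σ → Bool) (E D : ℕ) (m n : σ →₀ ℕ) (hm : ∀ i, m i ≤ E) (hn : ∀ i, n i ≤ D) :
    fl a (E + D) (m + n) = fl a E m + fl a D n := by
  ext i
  have := hm i
  have := hn i
  simp only [fl_apply, Finsupp.add_apply]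
  split_ifs
  · rfl
  · omega

/-- the chart `a` of a polynomial of multidegree `(E, .., E)`. -/
noncomputable def cht (a : σ → Bool) (E : ℕ) : MvPolynomial σ K →ₗ[K] MvPolynomial σ K :=
  (basisMonomials σ K).constr K (fun m => monomial (fl a E m) 1)

theorem cht_monomial (a : σ → Bool) (E : ℕ) (m : σ →₀ ℕ) (c : K) :
    cht a E (monomial m c) = monomial (fl a E m) c := by
  have h1 : (monomial m c : MvPolynomial σ K) = c • monomial m 1 := by
    rw [smul_monomial, smul_eq_mul, mul_one]
  have h2 : (monomial m 1 : MvPolynomial σ K) = basisMonomials σ K m := by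
    rw [coe_basisMonomials]
  rw [h1, map_smul]
  unfold cht
  rw [h2, Module.Basis.constr_basis, smul_monomial, smul_eq_mul, mul_one]

theorem cht_eq (a : σ → Bool) (E : ℕ) (p : MvPolynomial σ K) :
    cht a E p = ∑ m ∈ p.support, monomial (fl a E m) (coeff m p) := by
  conv_lhs => rw [← support_sum_monomial_coeff p]
  rw [map_sum]
  exact Finset.sum_congr rfl fun m _ => cht_monomial a E m _

theorem deg_supp {E : ℕ} {p : MvPolynomial σ K} (hp : ∀ i, degreeOf i p ≤ E) {m : σ →₀ ℕ}
    (hm : m ∈ p.support) (i : σ) : m i ≤ E := by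
  have h5 := hp i
  rw [degreeOf_eq_sup] at h5
  exact (Finset.le_sup (f := fun m : σ →₀ ℕ => m i) hm).trans h5

theorem cht_mul (a : σ → Bool) (E D : ℕ) (p q : MvPolynomial σ K) (hp : ∀ i, degreeOf i p ≤ E)
    (hq : ∀ i, degreeOf i q ≤ D) : cht a (E + D) (p * q) = cht a E p * cht a D q := by
  have h1 : p * q = ∑ m ∈ p.support, ∑ n ∈ q.support, monomial (m + n) (coeff m p * coeff n q) := by
    conv_lhs => rw [← support_sum_monomial_coeff p, ← support_sum_monomial_coeff q]
    rw [Finset.sum_mul_sum]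
    simp only [monomial_mul]
  rw [h1, cht_eq a E p, cht_eq a D q, Finset.sum_mul_sum, map_sum]
  refine Finset.sum_congr rfl fun m hm => ?_
  rw [map_sum]
  refine Finset.sum_congr rfl fun n hn => ?_
  rw [cht_monomial, fl_add a E D m n (deg_supp hp hm) (deg_supp hq hn), monomial_mul]

theorem cht_cht (a : σ → Bool) (E : ℕ) (p : MvPolynomial σ K) (hp : ∀ i, degreeOf i p ≤ E) :
    cht a E (cht a E p) = p := by
  rw [cht_eq a E p, map_sum]
  conv_rhs => rw [← support_sum_monomial_coeff p]
  refine Finset.sum_congr rfl fun m hm => ?_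
  rw [cht_monomial, fl_fl a E m (deg_supp hp hm)]

theorem cht_degree (a : σ → Bool) (E : ℕ) (p : MvPolynomial σ K) (hp : ∀ i, degreeOf i p ≤ E)
    (i : σ) : degreeOf i (cht a E p) ≤ E := by
  rw [cht_eq]
  refine (degreeOf_sum_le _ _ _).trans (Finset.sup_le fun m hm => ?_)
  have := deg_supp hp hm i
  rw [degreeOf_monomial_eq _ _ (mem_support_iff.1 hm), fl_apply]
  split_ifs
  · exact this
  · omega

theorem cht_one (a : σ → Bool) (E : ℕ) : cht a E (1 : MvPolynomial σ K) = monomial (fl a E 0) 1 := by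
  rw [← cht_monomial]
  rfl

theorem aeval_cht {Ω : Type} [Field Ω] [Algebra K Ω] (a : σ → Bool) (D : ℕ) (f : MvPolynomial σ K)
    (ζ : σ → Ω) : aeval ζ (cht a D f) =
      ∑ m ∈ f.support, algebraMap K Ω (coeff m f) * ∏ i, ζ i ^ (fl a D m i) := by
  rw [cht_eq, map_sum]
  refine Finset.sum_congr rfl fun m _ => ?_
  rw [aeval_monomial]
  congr 1
  rw [Finsupp.prod_fintype _ _ (fun i => pow_zero _)]

/-- the point of `(ℙ¹)^σ` with the chart coordinates `ζ`. -/
noncomputable def cpt {Ω : Type} [Field Ω] (a : σ → Bool) (ζ : σ → Ω) : σ → Fin 2 → Ω := fun i =>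
  open Classical in if a i then ![ζ i, 1] else if ζ i = 0 then ![1, 0] else ![(ζ i)⁻¹, 1]

theorem hv_cpt {Ω : Type} [Field Ω] [Algebra K Ω] (a : σ → Bool) (D : ℕ) (f : MvPolynomial σ K)
    (hf : ∀ i, degreeOf i f ≤ D) (ζ : σ → Ω) (h : aeval ζ (cht a D f) = 0) :
    hv (algebraMap K Ω) (fun _ => D) f (cpt a ζ) = 0 := by
  classical
  have h1 : hv (algebraMap K Ω) (fun _ => D) f (cpt a ζ) *
      ∏ i, (if a i = false ∧ ζ i ≠ 0 then ζ i ^ D else 1) = aeval ζ (cht a D f) := by
    rw [aeval_cht]
    unfold hv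
    rw [Finset.sum_mul]
    refine Finset.sum_congr rfl fun m hm => ?_
    rw [mul_assoc, ← Finset.prod_mul_distrib]
    congr 1
    refine Finset.prod_congr rfl fun i _ => ?_
    have hmi := deg_supp hf hm i
    rw [fl_apply]
    unfold cpt
    by_cases ha : a i
    · simp [ha]
    · by_cases hz : ζ i = 0
      · simp [ha, hz]
      · have ha' : a i = false := by simpa using ha
        simp only [ha', hz, ne_eq, not_false_eq_true, and_self, if_true, if_false, Bool.false_eq_true,
          Matrix.cons_val_zero, Matrix.cons_val_one, one_pow, mul_one]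
        rw [inv_pow]
        field_simp
        rw [← pow_add]
        congr 1
        omega
  rw [h, mul_eq_zero] at h1
  rcases h1 with h1 | h1
  · exact h1
  · exfalso
    rw [Finset.prod_eq_zero_iff] at h1
    obtain ⟨i, -, hi⟩ := h1
    split_ifs at hi with hc
    · exact pow_ne_zero D hc.2 hi
    · exact one_ne_zero hi

/-- `CodimGT` bounds the dimension of the primes containing the charts of all `f_j`. -/
theorem dimLT_of_codim {J : Type} (a : σ → Bool) (D s : ℕ) (f : J → MvPolynomial σ K)
    (hf : ∀ j i, degreeOf i (f j) ≤ D) (hc : CodimGT D f s) (P : Ideal (MvPolynomial σ K))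
    [P.IsPrime] (hP : ∀ j, cht a D (f j) ∈ P) (S : Finset σ) (hS : IndepMod P S) :
    S.card + s < Fintype.card σ := by
  classical
  let Ω := FractionRing (MvPolynomial σ K ⧸ P)
  let ζ : σ → Ω := fun i => algebraMap (MvPolynomial σ K ⧸ P) Ω (Ideal.Quotient.mk P (X i))
  have hζ : ∀ g, aeval ζ g = algebraMap (MvPolynomial σ K ⧸ P) Ω (Ideal.Quotient.mk P g) := by
    intro g
    have : (aeval ζ : MvPolynomial σ K →ₐ[K] Ω) =
        (IsScalarTower.toAlgHom K (MvPolynomial σ K ⧸ P) Ω).comp (Ideal.Quotient.mkₐ K P) := by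
      ext i
      simp [ζ]
    rw [this]
    rfl
  have hinjQ : Function.Injective (algebraMap (MvPolynomial σ K ⧸ P) Ω) :=
    IsFractionRing.injective _ _
  obtain ⟨T, hT, hTa⟩ := hc Ω (cpt a ζ) (by
    intro i
    unfold cpt
    by_cases ha : a i
    · left
      simp [ha]
    · by_cases hz : ζ i = 0
      · right
        simp [ha, hz]
      · left
        simp [ha, hz]) (by
    intro j
    apply hv_cpt a D (f j) (hf j) ζ
    rw [hζ, Ideal.Quotient.eq_zero_iff_mem.2 (hP j), map_zero])
  have hind : AlgebraicIndependent K (fun j : S => ζ j) := by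
    rw [algebraicIndependent_iff]
    intro q hq
    have h1 : aeval (fun j : S => ζ j) q = aeval ζ (rename Subtype.val q) := by
      rw [aeval_rename]
      rfl
    rw [h1, hζ, map_eq_zero_iff _ hinjQ, Ideal.Quotient.eq_zero_iff_mem] at hq
    exact hS q hq
  have hal : ∀ i, IsAlgebraic (IntermediateField.adjoin K (T : Set Ω)) (ζ i) := by
    intro i
    have h1 := hTa i
    unfold cpt at h1
    by_cases ha : a i
    · simpa [ha] using h1
    · by_cases hz : ζ i = 0
      · rw [hz]
        exact isAlgebraic_zero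
      · have h2 : IsAlgebraic (IntermediateField.adjoin K (T : Set Ω)) (ζ i)⁻¹ := by
          simpa [ha, hz] using h1
        have := h2.inv
        rwa [inv_inv] at this
  have h2 := Pool.Agent.Helper54.UN.indep_card (fun j : S => ζ j) hind (T : Set Ω)
    (fun j => hal j)
  rw [Set.encard_coe_eq_coe_finsetCard, Nat.card_eq_fintype_card, Fintype.card_coe] at h2
  have h3 : S.card ≤ T.card := by exact_mod_cast h2
  omega

/-- iteration of `gens`. -/
theorem chain [Infinite K] {α J : Type} [Finite α] [Fintype J]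
    (I : α → Ideal (MvPolynomial σ K)) (h : α → J → MvPolynomial σ K) (t : ℕ)
    (H : ∀ a (P : Ideal (MvPolynomial σ K)), P.IsPrime → I a ≤ P → (∃ j, h a j ∉ P) →
      DimLT P t) (k : ℕ) (hk : k ≤ t) :
    ∃ c : Fin k → J → K, ∀ a (P : Ideal (MvPolynomial σ K)), P.IsPrime → I a ≤ P →
      (∀ l, ∑ j, c l j • h a j ∈ P) → (∃ j, h a j ∉ P) → DimLT P (t - k) := by
  classical
  induction k with
  | zero =>
      refine ⟨fun l => Fin.elim0 l, ?_⟩
      intro a P hP hI _ hj
      exact H a P hP hI hj
  | succ k ih =>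
      obtain ⟨c, hc⟩ := ih (by omega)
      obtain ⟨c', hc'⟩ := gens (fun a => I a ⊔ Ideal.span (Set.range fun l : Fin k =>
        ∑ j, c l j • h a j)) h (t - (k + 1)) (by
          intro a P hP hI hj
          have h1 : t - (k + 1) + 1 = t - k := by omega
          rw [h1]
          refine hc a P hP (le_sup_left.trans hI) (fun l => ?_) hj
          exact hI (Ideal.mem_sup_right (Ideal.subset_span ⟨l, rfl⟩)))
      refine ⟨Fin.snoc c c', ?_⟩
      intro a P hP hI hl hj
      refine hc' a P hP (sup_le hI ?_) ?_ hj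
      · rw [Ideal.span_le]
        rintro _ ⟨l, rfl⟩
        have := hl l.castSucc
        simpa using this
      · have := hl (Fin.last k)
        simpa using this

theorem dimLT_card (P : Ideal (MvPolynomial σ K)) : DimLT P (Fintype.card σ + 1) := fun S _ =>
  Nat.lt_succ_of_le (Finset.card_le_univ S)

theorem not_dimLT_zero (P : Ideal (MvPolynomial σ K)) [hP : P.IsPrime] : ¬ DimLT P 0 := by
  intro h
  have := h ∅ (by
    intro F hF
    have h1 : F = C (coeff 0 F) := by
      apply eq_C_of_isEmpty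
    rw [h1, rename_C] at hF
    by_contra hne
    apply hP.ne_top
    rw [Ideal.eq_top_iff_one]
    have h2 : coeff 0 F ≠ 0 := by
      intro h0
      apply hne
      rw [h1, h0, map_zero]
    have h3 := P.mul_mem_left (C (coeff 0 F)⁻¹) hF
    rwa [← C_mul, inv_mul_cancel₀ h2, C_1] at h3)
  simp at this

end

end Pool.Agent.Helper92.PN
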