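import Pool.Agent.Helper92.PN.CenDefs

/-!
# CEN, part 1: generic combinations (`GENS`)
-/

set_option autoImplicit false

open MvPolynomial

namespace Pool.Agent.Helper92.PN

section

variable {K σ : Type} [Field K]

/-- the variables of `S` are algebraically independent modulo `P` -/
def IndepMod (P : Ideal (MvPolynomial σ K)) (S : Finset σ) : Prop :=
  ∀ F : MvPolynomial S K, rename Subtype.val F ∈ P → F = 0

/-- the dimension of `P` is `< t` -/
def DimLT (P : Ideal (MvPolynomial σ K)) (t : ℕ) : Prop := ∀ S : Finset σ, IndepMod P S → S.card < t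

theorem aeval_mk (P : Ideal (MvPolynomial σ K)) (S : Finset σ) (F : MvPolynomial S K) :
    aeval (fun i : S => (Ideal.Quotient.mk P (X i.val) : MvPolynomial σ K ⧸ P)) F =
      Ideal.Quotient.mk P (rename Subtype.val F) := by
  have : (aeval (fun i : S => (Ideal.Quotient.mk P (X i.val) : MvPolynomial σ K ⧸ P)) :
      MvPolynomial S K →ₐ[K] _) = (Ideal.Quotient.mkₐ K P).comp (rename Subtype.val) := by
    ext i
    simp
  rw [this]
  rfl

theorem indep_iff (P : Ideal (MvPolynomial σ K)) (S : Finset σ) : IndepMod P S ↔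
    AlgebraicIndependent K (fun i : S => (Ideal.Quotient.mk P (X i.val) : MvPolynomial σ K ⧸ P)) := by
  rw [algebraicIndependent_iff]
  constructor
  · intro h F hF
    rw [aeval_mk, Ideal.Quotient.eq_zero_iff_mem] at hF
    exact h F hF
  · intro h F hF
    apply h F
    rw [aeval_mk, Ideal.Quotient.eq_zero_iff_mem]
    exact hF

theorem alg_of_basis {A : Type} [CommRing A] [IsDomain A] [Algebra K A] (s : Set A)
    (hs : IsTranscendenceBasis K (Subtype.val : s → A)) (a : A) (ha : a ≠ 0) :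
    ∃ r ∈ Algebra.adjoin K s, r ≠ 0 ∧ a ∣ r := by
  have halg := hs.isAlgebraic
  rw [Subtype.range_coe] at halg
  obtain ⟨r, hr, hdvd⟩ := (halg.1 a).exists_nonzero_dvd (mem_nonZeroDivisors_of_ne_zero ha)
  exact ⟨r.val, r.2, fun h => hr (Subtype.ext h), hdvd⟩

theorem key_alg [DecidableEq σ] {A : Type} [CommRing A] [IsDomain A] [Algebra K A] (x : σ → A)
    (htop : Algebra.adjoin K (Set.range x) = ⊤) (S : Finset σ)
    (hind : AlgebraicIndependent K (fun i : S => x i.val))
    (hmax : ∀ i₀ : σ, i₀ ∉ S → ¬ AlgebraicIndependent K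
      (fun i : (insert i₀ S : Finset σ) => x i.val)) (a : A) (ha : a ≠ 0) :
    ∃ F : MvPolynomial S K, F ≠ 0 ∧ a ∣ aeval (fun i : S => x i.val) F := by
  set s : Set A := Set.range (fun i : S => x i.val) with hs
  have hsr : s ⊆ Set.range x := by
    rintro _ ⟨i, rfl⟩
    exact ⟨i.val, rfl⟩
  have : Algebra.IsAlgebraic (Algebra.adjoin K (Set.range x)) A := by
    constructor
    intro a
    have ha : a ∈ Algebra.adjoin K (Set.range x) := by
      rw [htop]
      exact Algebra.mem_top
    exact isAlgebraic_algebraMap (⟨a, ha⟩ : Algebra.adjoin K (Set.range x))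
  have hsi : AlgebraicIndepOn K id s := by
    have := hind.to_subtype_range
    exact this
  obtain ⟨u, hsu, hur, hu⟩ := exists_isTranscendenceBasis_between s (Set.range x) hsr hsi
  have hus : s = u := by
    apply Set.Subset.antisymm hsu
    intro a ha
    by_contra has
    obtain ⟨i₀, hi₀⟩ := hur ha
    have hnot : i₀ ∉ S := fun hi => has ⟨⟨i₀, hi⟩, hi₀⟩
    apply hmax i₀ hnot
    have hmem : ∀ i : (insert i₀ S : Finset σ), x i.val ∈ u := by
      intro i
      rcases Finset.mem_insert.1 i.2 with hi | hi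
      · rw [hi, hi₀]
        exact ha
      · exact hsu ⟨⟨i.val, hi⟩, rfl⟩
    have hinj : Function.Injective (fun i : (insert i₀ S : Finset σ) => (⟨x i.val, hmem i⟩ : u)) := by
      intro i j hij
      have hij' : x i.val = x j.val := congrArg Subtype.val hij
      apply Subtype.ext
      rcases Finset.mem_insert.1 i.2 with hi | hi <;> rcases Finset.mem_insert.1 j.2 with hj | hj
      · rw [hi, hj]
      · exfalso
        apply has
        rw [← hi₀, ← hi, hij']
        exact ⟨⟨j.val, hj⟩, rfl⟩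
      · exfalso
        apply has
        rw [← hi₀, ← hj, ← hij']
        exact ⟨⟨i.val, hi⟩, rfl⟩
      · have := hind.injective (a₁ := ⟨i.val, hi⟩) (a₂ := ⟨j.val, hj⟩) hij'
        exact congrArg (fun z : S => z.val) this
    exact hu.1.comp _ hinj
  subst hus
  obtain ⟨r, hrm, hr, hdvd⟩ := alg_of_basis _ hu a ha
  rw [hs, Algebra.adjoin_range_eq_range_aeval] at hrm
  obtain ⟨F, hF⟩ := hrm
  refine ⟨F, ?_, ?_⟩
  · rintro rfl
    apply hr
    rw [← hF]
    exact map_zero _
  · have hF' : aeval (fun i : S => x i.val) F = r := hF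
    rw [hF']
    exact hdvd

theorem dim_strict (P P' : Ideal (MvPolynomial σ K)) [P.IsPrime] [P'.IsPrime] (hle : P ≤ P')
    (h : MvPolynomial σ K) (h1 : h ∈ P') (h2 : h ∉ P) (t : ℕ) (ht : DimLT P (t + 1)) :
    DimLT P' t := by
  classical
  intro S hS
  have hSP : IndepMod P S := fun F hF => hS F (hle hF)
  have hlt := ht S hSP
  by_contra hge
  have hcard : S.card = t := by omega
  have htop : Algebra.adjoin K (Set.range fun i : σ =>
      (Ideal.Quotient.mk P (X i) : MvPolynomial σ K ⧸ P)) = ⊤ := by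
    rw [Algebra.adjoin_range_eq_range_aeval, AlgHom.range_eq_top]
    intro a
    obtain ⟨g, rfl⟩ := Ideal.Quotient.mk_surjective a
    refine ⟨g, ?_⟩
    have : (aeval fun i : σ => (Ideal.Quotient.mk P (X i) : MvPolynomial σ K ⧸ P) :
        MvPolynomial σ K →ₐ[K] _) = Ideal.Quotient.mkₐ K P := by
      ext i
      simp
    rw [this]
    rfl
  have hh0 : (Ideal.Quotient.mk P h : MvPolynomial σ K ⧸ P) ≠ 0 := by
    intro h0
    exact h2 (Ideal.Quotient.eq_zero_iff_mem.1 h0)
  obtain ⟨F, hF0, hdvd⟩ := key_alg (K := K)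
    (fun i : σ => (Ideal.Quotient.mk P (X i) : MvPolynomial σ K ⧸ P)) htop S
    ((indep_iff P S).1 hSP) (by
      intro i₀ hi₀ hcon
      have := ht _ ((indep_iff P _).2 hcon)
      rw [Finset.card_insert_of_notMem hi₀] at this
      omega) _ hh0
  rw [aeval_mk] at hdvd
  obtain ⟨c, hc⟩ := hdvd
  obtain ⟨g, rfl⟩ := Ideal.Quotient.mk_surjective c
  rw [← map_mul, Ideal.Quotient.eq] at hc
  have h3 : rename Subtype.val F ∈ P' := by
    have h4 := P'.add_mem (hle hc) (P'.mul_mem_right g h1)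
    rwa [sub_add_cancel] at h4
  exact hF0 (hS F h3)

/-- **GENS** -/
theorem gens [Infinite K] [Finite σ] {α J : Type} [Finite α] [Fintype J]
    (I : α → Ideal (MvPolynomial σ K)) (h : α → J → MvPolynomial σ K) (t : ℕ)
    (H : ∀ a (P : Ideal (MvPolynomial σ K)), P.IsPrime → I a ≤ P → (∃ j, h a j ∉ P) →
      DimLT P (t + 1)) :
    ∃ c : J → K, ∀ a (P : Ideal (MvPolynomial σ K)), P.IsPrime → I a ≤ P →
      ∑ j, c j • h a j ∈ P → (∃ j, h a j ∉ P) → DimLT P t := by
  classical
  let W : Ideal (MvPolynomial σ K) → α → Subspace K (J → K) := fun P a =>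
    (P.restrictScalars K).comap (Fintype.linearCombination K (h a))
  have hW : ∀ P a c, c ∈ W P a ↔ ∑ j, c j • h a j ∈ P := by
    intro P a c
    simp only [W, Submodule.mem_comap, Fintype.linearCombination_apply]
    rfl
  let Bad : Set (Ideal (MvPolynomial σ K) × α) :=
    {q | q.1 ∈ (I q.2).minimalPrimes ∧ ∃ j, h q.2 j ∉ q.1}
  have hBad : Bad.Finite := by
    have h1 : Bad ⊆ ⋃ a : α, (fun P => (P, a)) '' (I a).minimalPrimes := by
      rintro ⟨P, a⟩ hq
      exact Set.mem_iUnion.2 ⟨a, P, hq.1, rfl⟩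
    refine Set.Finite.subset (Set.finite_iUnion fun a => ?_) h1
    exact ((I a).finite_minimalPrimes_of_isNoetherianRing).image _
  let s : Finset (Subspace K (J → K)) := hBad.toFinset.image (fun q => W q.1 q.2)
  have hs : ⊤ ∉ s := by
    intro htop
    obtain ⟨q, hq, hqt⟩ := Finset.mem_image.1 htop
    rw [Set.Finite.mem_toFinset] at hq
    obtain ⟨j, hj⟩ := hq.2
    apply hj
    have h1 : (Pi.single j 1 : J → K) ∈ W q.1 q.2 := by
      rw [hqt]
      exact Submodule.mem_top
    rw [hW] at h1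
    rw [Finset.sum_eq_single j (fun b _ hb => by rw [Pi.single_eq_of_ne hb, zero_smul])
      (fun hj => absurd (Finset.mem_univ j) hj), Pi.single_eq_same, one_smul] at h1
    exact h1
  have hne := Subspace.biUnion_ne_univ_of_top_notMem (s := s) hs
  obtain ⟨c, hc⟩ := (Set.ne_univ_iff_exists_notMem _).1 hne
  refine ⟨c, ?_⟩
  intro a P hP hIP hmem hj
  obtain ⟨P₀, hP₀, hP₀P⟩ := Ideal.exists_minimalPrimes_le hIP
  obtain ⟨j, hj⟩ := hj
  have : P₀.IsPrime := hP₀.1.1
  have hj₀ : h a j ∉ P₀ := fun hh => hj (hP₀P hh)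
  have hc₀ : ∑ j, c j • h a j ∉ P₀ := by
    intro hh
    apply hc
    refine Set.mem_iUnion₂.2 ⟨W P₀ a, ?_, ?_⟩
    · exact Finset.mem_image.2 ⟨(P₀, a), (Set.Finite.mem_toFinset _).2 ⟨hP₀, j, hj₀⟩, rfl⟩
    · exact (hW P₀ a c).2 hh
  exact dim_strict P₀ P hP₀P _ hmem hc₀ t (H a P₀ inferInstance hP₀.1.2 ⟨j, hj₀⟩)

end

end Pool.Agent.Helper92.PN
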