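import Pool.Agent.Helper92.PN.Forms

/-!
# CEN, part 4: division by the forms and iteration
-/

set_option autoImplicit false

open MvPolynomial

namespace Pool.Agent.Helper92.PN

section

variable {K σ G : Type} [Field K] [Fintype σ] [Fintype G]

/-- which variables have an exponent `< k₁` -/
def sml (k₁ : ℕ) (b : σ →₀ ℕ) : σ → Bool := fun i => decide (b i < k₁)

/-- the quotient of the monomial `b` -/
noncomputable def quo (k₁ : ℕ) (H : (σ → Bool) → G → MvPolynomial σ K) (s : G) (b : σ →₀ ℕ) :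
    MvPolynomial σ K := H (sml k₁ b) s * monomial (b - fl (sml k₁ b) k₁ 0) 1

/-- the division operator -/
noncomputable def LL (k₁ : ℕ) (H : (σ → Bool) → G → MvPolynomial σ K) (s : G) :
    MvPolynomial σ K →ₗ[K] MvPolynomial σ K :=
  (basisMonomials σ K).constr K (fun b => quo k₁ H s b)

theorem LL_monomial (k₁ : ℕ) (H : (σ → Bool) → G → MvPolynomial σ K) (s : G) (b : σ →₀ ℕ)
    (c : K) : LL k₁ H s (monomial b c) = c • quo k₁ H s b := by
  have h1 : (monomial b c : MvPolynomial σ K) = c • monomial b 1 := by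
    rw [smul_monomial, smul_eq_mul, mul_one]
  have h2 : (monomial b 1 : MvPolynomial σ K) = basisMonomials σ K b := by
    rw [coe_basisMonomials]
  rw [h1, map_smul]
  unfold LL
  rw [h2, Module.Basis.constr_basis]

theorem LL_eq (k₁ : ℕ) (H : (σ → Bool) → G → MvPolynomial σ K) (s : G) (p : MvPolynomial σ K) :
    LL k₁ H s p = ∑ b ∈ p.support, coeff b p • quo k₁ H s b := by
  conv_lhs => rw [← support_sum_monomial_coeff p]
  rw [map_sum]
  exact Finset.sum_congr rfl fun b _ => LL_monomial k₁ H s b _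

theorem fl_le (k₁ : ℕ) (b : σ →₀ ℕ) : fl (sml k₁ b) k₁ 0 ≤ b := by
  intro i
  rw [fl_apply]
  unfold sml
  by_cases h : b i < k₁
  · simp [h]
  · simp only [h, decide_false, Bool.false_eq_true, if_false]
    simp only [Finsupp.coe_zero, Pi.zero_apply]
    omega

theorem div_eq (k₁ : ℕ) (H : (σ → Bool) → G → MvPolynomial σ K) (u : G → MvPolynomial σ K)
    (hH : ∀ a : σ → Bool, ∑ t, H a t * u t = monomial (fl a k₁ 0) 1) (p : MvPolynomial σ K) :
    ∑ s, u s * LL k₁ H s p = p := by
  have h1 : ∀ b : σ →₀ ℕ, ∑ s, u s * quo k₁ H s b = monomial b 1 := by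
    intro b
    unfold quo
    have h2 : ∀ s, u s * (H (sml k₁ b) s * monomial (b - fl (sml k₁ b) k₁ 0) 1) =
        (H (sml k₁ b) s * u s) * monomial (b - fl (sml k₁ b) k₁ 0) 1 := fun s => by ring
    simp only [h2]
    rw [← Finset.sum_mul, hH, monomial_mul, mul_one, add_tsub_cancel_of_le (fl_le k₁ b)]
  conv_rhs => rw [← support_sum_monomial_coeff p]
  simp only [LL_eq, Finset.mul_sum]
  rw [Finset.sum_comm]
  refine Finset.sum_congr rfl fun b _ => ?_
  simp only [mul_smul_comm]
  rw [← Finset.smul_sum, h1, smul_monomial, smul_eq_mul, mul_one]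

theorem quo_degree (D k₁ : ℕ) (H : (σ → Bool) → G → MvPolynomial σ K) (hk : 1 ≤ k₁)
    (hH : ∀ a t i, degreeOf i (H a t) + D ≤ k₁) (s : G) (b : σ →₀ ℕ) (i : σ) :
    degreeOf i (quo k₁ H s b) + D ≤ max (b i) (2 * k₁) := by
  unfold quo
  have h1 := degreeOf_mul_le i (H (sml k₁ b) s)
    (monomial (b - fl (sml k₁ b) k₁ 0) 1 : MvPolynomial σ K)
  rw [degreeOf_monomial_eq _ _ one_ne_zero] at h1
  have h2 := hH (sml k₁ b) s i
  have h3 : (b - fl (sml k₁ b) k₁ 0) i = if b i < k₁ then b i else b i - k₁ := by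
    rw [Finsupp.tsub_apply, fl_apply]
    unfold sml
    by_cases h : b i < k₁
    · simp [h]
    · simp [h]
  rw [h3] at h1
  split_ifs at h1 with h
  · have := le_max_right (b i) (2 * k₁)
    omega
  · have := le_max_left (b i) (2 * k₁)
    omega

theorem LL_degree (D k₁ : ℕ) (H : (σ → Bool) → G → MvPolynomial σ K) (hk : 1 ≤ k₁)
    (hH : ∀ a t i, degreeOf i (H a t) + D ≤ k₁) (s : G) (p : MvPolynomial σ K) (N : ℕ)
    (hp : ∀ i, degreeOf i p ≤ N) (i : σ) :
    degreeOf i (LL k₁ H s p) ≤ max N (2 * k₁) - D := by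
  rw [LL_eq]
  refine (degreeOf_sum_le _ _ _).trans (Finset.sup_le fun b hb => ?_)
  rw [smul_eq_C_mul]
  refine (degreeOf_C_mul_le _ _ _).trans ?_
  have h1 := quo_degree D k₁ H hk hH s b i
  have h2 := deg_supp hp hb i
  have h3 : max (b i) (2 * k₁) ≤ max N (2 * k₁) := max_le_max h2 le_rfl
  omega

/-- the iterated division operator of a word -/
noncomputable def LW (k₁ : ℕ) (H : (σ → Bool) → G → MvPolynomial σ K) :
    (t : ℕ) → (Fin t → G) → (MvPolynomial σ K →ₗ[K] MvPolynomial σ K)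
  | 0, _ => LinearMap.id
  | t + 1, w => (LL k₁ H (w 0)).comp (LW k₁ H t (Fin.tail w))

theorem word_sum (k₁ : ℕ) (H : (σ → Bool) → G → MvPolynomial σ K) (u : G → MvPolynomial σ K)
    (hH : ∀ a : σ → Bool, ∑ t, H a t * u t = monomial (fl a k₁ 0) 1) (p : MvPolynomial σ K)
    (t : ℕ) : ∑ w : Fin t → G, (∏ i, u (w i)) * LW k₁ H t w p = p := by
  classical
  induction t with
  | zero => simp [LW]
  | succ t ih =>
      rw [← (Fin.consEquiv fun _ => G).sum_comp, Fintype.sum_prod_type, Finset.sum_comm]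
      rw [← ih]
      refine Finset.sum_congr rfl fun w _ => ?_
      conv_rhs => rw [← div_eq k₁ H u hH (LW k₁ H t w p)]
      rw [Finset.mul_sum]
      refine Finset.sum_congr rfl fun s _ => ?_
      have htail : Fin.tail ((Fin.consEquiv fun _ => G) (s, w)) = w := rfl
      simp only [LW, LinearMap.comp_apply, htail]
      simp only [Fin.consEquiv_apply, Fin.cons_zero, Fin.prod_univ_succ, Fin.cons_succ]
      rw [ih]
      ring

theorem LW_degree (D k₁ : ℕ) (hD : 1 ≤ D) (H : (σ → Bool) → G → MvPolynomial σ K) (hk : 1 ≤ k₁)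
    (hH : ∀ a t i, degreeOf i (H a t) + D ≤ k₁) (N : ℕ) (p : MvPolynomial σ K)
    (hp : ∀ i, degreeOf i p ≤ N) (t : ℕ) (ht : t * D ≤ N - 2 * k₁) (w : Fin t → G) (i : σ) :
    degreeOf i (LW k₁ H t w p) ≤ N - t * D := by
  induction t generalizing i with
  | zero => simpa [LW] using hp i
  | succ t ih =>
      have h1 : t * D ≤ N - 2 * k₁ := le_trans (by
        apply Nat.mul_le_mul_right
        omega) ht
      have h2 := LL_degree D k₁ H hk hH (w 0) (LW k₁ H t (Fin.tail w) p) (N - t * D)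
        (fun i => ih h1 _ i) i
      have h3 : (t + 1) * D = t * D + D := by ring
      rw [h3] at ht ⊢
      have h4 : max (N - t * D) (2 * k₁) = N - t * D := by
        apply max_eq_left
        omega
      rw [h4] at h2
      exact h2.trans (by omega)

end

end Pool.Agent.Helper92.PN
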