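import Pool.Agent.Helper92.PN.Frame

/-!
# CEN, part 6: the coefficients of the iterated division
-/

set_option autoImplicit false

open MvPolynomial

namespace Pool.Agent.Helper92.PN

open Pool.Agent.Helper29.BL Pool.Agent.Helper42.SG Pool.Agent.Helper65.SG

section bounds

variable {K σ G : Type} [Field K] [Fintype σ] [Fintype G]

/-- the power series of a polynomial -/
noncomputable def sr : MvPolynomial σ K →ₐ[K] MvPowerSeries σ K :=
  aeval (fun i => MvPowerSeries.X i)

theorem coeff_sr (p : MvPolynomial σ K) (b : σ →₀ ℕ) :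
    MvPowerSeries.coeff b (sr p) = coeff b p := by
  have h : (sr : MvPolynomial σ K →ₐ[K] MvPowerSeries σ K) =
      MvPolynomial.coeToMvPowerSeries.algHom K := by
    unfold sr
    ext i : 1
    simp
  rw [h]
  simp

theorem rpw_one (b : σ →₀ ℕ) : rpw (fun _ : σ => (1 : ℝ)) b = 1 := by
  simp [rpw, Finsupp.prod]

theorem one_le_prod {ι : Type} (s : Finset ι) (x : ι → ℝ) (h : ∀ i, 1 ≤ x i) : 1 ≤ ∏ i ∈ s, x i := by
  classical
  induction s using Finset.induction_on with
  | empty => simp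
  | insert a s ha ih =>
      rw [Finset.prod_insert ha]
      exact one_le_mul_of_one_le_of_one_le (h a) ih

open Classical in
/-- the constant of one division -/
noncomputable def BH (v : AbsoluteValue K ℝ) (H : (σ → Bool) → G → MvPolynomial σ K) : ℝ :=
  ∏ q : (σ → Bool) × G, wc v (H q.1 q.2).support (fun m => coeff m (H q.1 q.2))

theorem one_le_BH (v : AbsoluteValue K ℝ) (H : (σ → Bool) → G → MvPolynomial σ K) : 1 ≤ BH v H := by
  unfold BH
  exact one_le_prod _ _ (fun q => one_le_wc v _ _)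

theorem wc_le_BH (v : AbsoluteValue K ℝ) (H : (σ → Bool) → G → MvPolynomial σ K) (a : σ → Bool)
    (s : G) : wc v (H a s).support (fun m => coeff m (H a s)) ≤ BH v H := by
  classical
  unfold BH
  rw [← Finset.mul_prod_erase Finset.univ _ (Finset.mem_univ (a, s))]
  have h1 := one_le_wc v (H a s).support (fun m => coeff m (H a s))
  have h2 : 1 ≤ ∏ q ∈ Finset.univ.erase (a, s),
      wc v (H q.1 q.2).support (fun m => coeff m (H q.1 q.2)) :=
    one_le_prod _ _ (fun q => one_le_wc v _ _)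
  nlinarith

theorem nps_quo (v : AbsoluteValue K ℝ) (k₁ : ℕ) (H : (σ → Bool) → G → MvPolynomial σ K) (s : G)
    (b : σ →₀ ℕ) : NPS v (fun _ : σ => (1 : ℝ)) (sr (quo k₁ H s b)) (BH v H) := by
  have hN := nfr_nps (K := K) v (r := fun _ : σ => (1 : ℝ)) (fun _ => one_pos)
  unfold quo
  rw [map_mul]
  have h1 := fr_poly hN (fun i => MvPowerSeries.X i) (fun _ => 1) (fun _ => le_rfl)
    (fun i => nps_X (fun _ => one_pos) i) (H (sml k₁ b) s)
    (Finset.univ.sup fun i => degreeOf i (H (sml k₁ b) s))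
    (fun i => Finset.le_sup (f := fun i => degreeOf i (H (sml k₁ b) s)) (Finset.mem_univ i))
  have h2 := fr_mono hN (fun i => MvPowerSeries.X i) (fun _ => 1)
    (fun i => nps_X (fun _ => one_pos) i) (b - fl (sml k₁ b) k₁ 0)
  simp only [one_pow, Finset.prod_const_one, mul_one] at h1 h2
  have h3 := hN.mul _ _ _ _ h1 h2
  rw [mul_one] at h3
  exact hN.mono _ _ _ h3 (wc_le_BH v H _ s)

theorem nps_LL (v : AbsoluteValue K ℝ) (k₁ : ℕ) (H : (σ → Bool) → G → MvPolynomial σ K) (s : G)
    (p : MvPolynomial σ K) (S : ℝ) (hp : NPS v (fun _ : σ => (1 : ℝ)) (sr p) S) :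
    NPS v (fun _ : σ => (1 : ℝ)) (sr (LL k₁ H s p)) (S * BH v H) := by
  have hN := nfr_nps (K := K) v (r := fun _ : σ => (1 : ℝ)) (fun _ => one_pos)
  have hB : 0 ≤ BH v H := zero_le_one.trans (one_le_BH v H)
  rw [LL_eq, map_sum]
  simp only [map_smul]
  by_cases hv : IsNonarchimedean v
  · refine fr_sum_na hN hv _ _ _ _ _ hB hp.1 (fun b _ => ?_) fun b _ => nps_quo v k₁ H s b
    have := hp.2.1 hv b
    rwa [coeff_sr, rpw_one, mul_one] at this
  · refine hN.mono _ _ _ (fr_sum hN _ _ _ _ hB fun b _ => nps_quo v k₁ H s b) ?_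
    apply mul_le_mul_of_nonneg_right _ hB
    have := hp.2.2 hv p.support
    simpa only [coeff_sr, rpw_one, mul_one] using this

theorem nps_LW (v : AbsoluteValue K ℝ) (k₁ : ℕ) (H : (σ → Bool) → G → MvPolynomial σ K)
    (p : MvPolynomial σ K) (S : ℝ) (hp : NPS v (fun _ : σ => (1 : ℝ)) (sr p) S) (t : ℕ)
    (w : Fin t → G) : NPS v (fun _ : σ => (1 : ℝ)) (sr (LW k₁ H t w p)) (S * BH v H ^ t) := by
  induction t with
  | zero => simpa [LW] using hp
  | succ t ih =>
      have h1 := nps_LL v k₁ H (w 0) _ _ (ih (Fin.tail w))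
      have h2 : S * BH v H ^ (t + 1) = S * BH v H ^ t * BH v H := by ring
      rw [h2]
      exact h1

theorem coeff_LW_le (v : AbsoluteValue K ℝ) (k₁ : ℕ) (H : (σ → Bool) → G → MvPolynomial σ K)
    (g : σ →₀ ℕ) (t : ℕ) (w : Fin t → G) (b : σ →₀ ℕ) :
    v (coeff b (LW k₁ H t w (monomial g 1))) ≤ BH v H ^ t := by
  have hN := nfr_nps (K := K) v (r := fun _ : σ => (1 : ℝ)) (fun _ => one_pos)
  have h2 := fr_mono hN (fun i => MvPowerSeries.X i) (fun _ => 1)
    (fun i => nps_X (fun _ => one_pos) i) g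
  simp only [one_pow, Finset.prod_const_one] at h2
  have h3 := nps_LW v k₁ H (monomial g 1) 1 h2 t w
  have h4 := coeff_le_of_nps (fun _ => one_pos) h3 b
  rwa [coeff_sr, rpw_one, div_one, one_mul] at h4

/-- denominators -/
theorem exists_den_nat [NumberField K] {ι : Type} (s : Finset ι) (x : ι → K) :
    ∃ d : ℕ, 0 < d ∧ ∀ i ∈ s, IsIntegral ℤ ((d : K) * x i) := by
  classical
  obtain ⟨y, hy, h⟩ := exists_integral_multiples ℤ ℚ (s.image x)
  refine ⟨y.natAbs, Int.natAbs_pos.2 hy, fun i hi => ?_⟩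
  have h1 := h (x i) (Finset.mem_image_of_mem x hi)
  rw [zsmul_eq_mul] at h1
  rcases Int.natAbs_eq y with h2 | h2
  · rw [h2] at h1
    simpa using h1
  · rw [h2] at h1
    have h3 := h1.neg
    simpa using h3

theorem coeff_quo_integral (d : ℕ) (k₁ : ℕ) (H : (σ → Bool) → G → MvPolynomial σ K)
    (hd : ∀ a s b, IsIntegral ℤ ((d : K) * coeff b (H a s))) (s : G) (b c : σ →₀ ℕ) :
    IsIntegral ℤ ((d : K) * coeff c (quo k₁ H s b)) := by
  unfold quo
  rw [coeff_mul_monomial']
  split_ifs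
  · rw [mul_one]
    exact hd _ _ _
  · rw [mul_zero]
    exact isIntegral_zero

theorem coeff_LW_integral (d : ℕ) (k₁ : ℕ) (H : (σ → Bool) → G → MvPolynomial σ K)
    (hd : ∀ a s b, IsIntegral ℤ ((d : K) * coeff b (H a s))) (p : MvPolynomial σ K)
    (hp : ∀ b, IsIntegral ℤ (coeff b p)) (t : ℕ) (w : Fin t → G) (b : σ →₀ ℕ) :
    IsIntegral ℤ ((d : K) ^ t * coeff b (LW k₁ H t w p)) := by
  induction t generalizing b with
  | zero => simpa [LW] using hp b
  | succ t ih =>
      have h1 : coeff b (LW k₁ H (t + 1) w p) = ∑ c ∈ (LW k₁ H t (Fin.tail w) p).support,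
          coeff c (LW k₁ H t (Fin.tail w) p) * coeff b (quo k₁ H (w 0) c) := by
        change coeff b (LL k₁ H (w 0) (LW k₁ H t (Fin.tail w) p)) = _
        rw [LL_eq, coeff_sum]
        refine Finset.sum_congr rfl fun c _ => ?_
        rw [coeff_smul, smul_eq_mul]
      rw [h1, Finset.mul_sum]
      refine IsIntegral.sum _ fun c _ => ?_
      have h2 : (d : K) ^ (t + 1) * (coeff c (LW k₁ H t (Fin.tail w) p) *
          coeff b (quo k₁ H (w 0) c)) = ((d : K) ^ t * coeff c (LW k₁ H t (Fin.tail w) p)) *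
          ((d : K) * coeff b (quo k₁ H (w 0) c)) := by ring
      rw [h2]
      exact (ih (Fin.tail w) c).mul (coeff_quo_integral d k₁ H hd _ _ _)

end bounds

section words

variable {G : Type} [Fintype G] [DecidableEq G]

/-- the number of letters `s` in the word `w` -/
def cnt {t : ℕ} (w : Fin t → G) (s : G) : ℕ := (Finset.univ.filter fun i => w i = s).card

theorem cnt_le {t : ℕ} (w : Fin t → G) (s : G) : cnt w s < t + 1 := by
  unfold cnt
  have := Finset.card_filter_le (Finset.univ : Finset (Fin t)) (fun i => w i = s)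
  rw [Finset.card_univ, Fintype.card_fin] at this
  omega

theorem cnt_sum {t : ℕ} (w : Fin t → G) : ∑ s, cnt w s = t := by
  unfold cnt
  have := Finset.card_eq_sum_card_fiberwise (s := (Finset.univ : Finset (Fin t)))
    (t := (Finset.univ : Finset G)) (f := w) (fun _ _ => Finset.mem_coe.2 (Finset.mem_univ _))
  rw [Finset.card_univ, Fintype.card_fin] at this
  exact this.symm

theorem prod_word {R : Type} [CommMonoid R] (u : G → R) {t : ℕ} (w : Fin t → G) :
    ∏ i, u (w i) = ∏ s, u s ^ cnt w s := by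
  unfold cnt
  have h1 : ∀ s, u s ^ (Finset.univ.filter fun i => w i = s).card =
      ∏ i : Fin t, if w i = s then u s else 1 := by
    intro s
    rw [← Finset.prod_filter, Finset.prod_const]
  simp only [h1]
  rw [Finset.prod_comm]
  refine Finset.prod_congr rfl fun i _ => ?_
  rw [Finset.prod_ite_eq]
  simp

/-- the exponents of the products of `t` forms -/
abbrev Et (G : Type) [Fintype G] (t : ℕ) : Type := {η : G → Fin (t + 1) // ∑ s, (η s : ℕ) = t}

/-- the exponent of a word -/
def cw {t : ℕ} (w : Fin t → G) : Et G t :=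
  ⟨fun s => ⟨cnt w s, cnt_le w s⟩, cnt_sum w⟩

end words

end Pool.Agent.Helper92.PN
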